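import Pool.Agent.H14.VC.Main
import Pool.Agent.H16.P3.Weights

/-!
# The weighted sum over the differences: pointwise bounds, for an arbitrary condition
-/

set_option autoImplicit false

namespace Pool.Agent.H16.P5

open Finset
open Pool.Agent.H14.VC
open Pool.Agent.H16.P3 (gen ind miss)

variable (T S : ℕ → ℤ → Prop)

/-- the difference is good -/
def Good (Q R : Finset ℕ) (c : ℕ → ℝ) (z : ℕ) (n : ℤ) : Prop :=
  (∀ q ∈ Pz z, ¬ T q n) ∧ (∀ p ∈ R, ¬ S p n) ∧
    (by classical exact ∑ p ∈ (Q \ R).filter (fun p => S p n), c p < 1)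

open Classical in
lemma gen_ind_T (Q : Finset ℕ) (l : Finset ℕ → ℝ) (n : ℤ) :
    ∑ U ∈ Q.powerset, l U * ∏ p ∈ U, (if S p n then (1 : ℝ) else 0) =
      gen Q l (ind (Q.filter (fun p => S p n))) := by
  unfold gen
  apply sum_congr rfl
  intro U hU
  rw [mem_powerset] at hU
  congr 1
  apply prod_congr rfl
  intro p hp
  unfold ind
  by_cases h : S p n
  · rw [if_pos h, if_pos (mem_filter.2 ⟨hU hp, h⟩)]
  · rw [if_neg h, if_neg (fun h' : p ∈ Q.filter (fun p => S p n) => h (mem_filter.1 h').2)]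

open Classical in
lemma pt_upper (Q R : Finset ℕ) (hRQ : R ⊆ Q) (c : ℕ → ℝ) (hc : ∀ p ∈ Q \ R, 0 ≤ c p) (l1 l2 : Finset ℕ → ℝ)
    (h : ∀ S', 0 ≤ gen Q l1 (ind S') ∧ 0 ≤ gen Q l2 (ind S') ∧
        gen Q l1 (ind S') - gen Q l2 (ind S') ≤ miss R S' * (1 - ∑ p ∈ (Q \ R) ∩ S', c p))
    (z : ℕ) (n : ℤ) (X : ℝ) :
    X ^ 2 * ((1 - ∑ q ∈ Pz z, (if T q n then (1 : ℝ) else 0)) *
      (∑ U ∈ Q.powerset, l1 U * ∏ p ∈ U, (if S p n then (1 : ℝ) else 0)) -
      ∑ U ∈ Q.powerset, l2 U * ∏ p ∈ U, (if S p n then (1 : ℝ) else 0)) ≤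
      if Good T S Q R c z n then X ^ 2 else 0 := by
  rw [gen_ind_T, gen_ind_T]
  obtain ⟨h1, h2, h3⟩ := h (Q.filter (fun p => S p n))
  set S' := Q.filter (fun p => S p n) with hS
  have hX := sq_nonneg X
  have hset : (Q \ R) ∩ S' = (Q \ R).filter (fun p => S p n) := by
    ext p
    simp only [hS, mem_inter, mem_filter, mem_sdiff]
    tauto
  rw [hset] at h3
  have hsum0 : 0 ≤ ∑ p ∈ (Q \ R).filter (fun p => S p n), c p :=
    sum_nonneg fun p hp => hc p (mem_filter.1 hp).1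
  by_cases hq : ∀ q ∈ Pz z, ¬ T q n
  · have e0 : ∑ q ∈ Pz z, (if T q n then (1 : ℝ) else 0) = 0 :=
      sum_eq_zero fun q hq' => by rw [if_neg (hq q hq')]
    rw [e0, sub_zero, one_mul]
    by_cases hm : ∀ p ∈ R, ¬ S p n
    · have hmiss : miss R S' = 1 := by
        unfold miss
        rw [if_pos]
        rw [disjoint_left]
        intro p hp hpR
        exact hm p hpR (mem_filter.1 hp).2
      rw [hmiss, one_mul] at h3
      by_cases hs : ∑ p ∈ (Q \ R).filter (fun p => S p n), c p < 1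
      · rw [if_pos ⟨hq, hm, hs⟩]
        nlinarith
      · rw [if_neg (fun h' => hs h'.2.2)]
        push Not at hs
        nlinarith
    · rw [if_neg (fun h' => hm h'.2.1)]
      push Not at hm
      obtain ⟨p, hp, hpT⟩ := hm
      have hmiss : miss R S' = 0 := by
        unfold miss
        rw [if_neg]
        intro hd
        exact (disjoint_left.1 hd) (mem_filter.2 ⟨hRQ hp, hpT⟩) hp
      rw [hmiss, zero_mul] at h3
      nlinarith
  · rw [if_neg (fun h' => hq h'.1)]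
    push Not at hq
    obtain ⟨q, hq, hT⟩ := hq
    have e1 : (1 : ℝ) ≤ ∑ q ∈ Pz z, (if T q n then (1 : ℝ) else 0) := by
      have h2 : (if T q n then (1 : ℝ) else 0) ≤ ∑ q ∈ Pz z, (if T q n then (1 : ℝ) else 0) := by
        apply single_le_sum (f := fun q => if T q n then (1 : ℝ) else 0) _ hq
        intro i _
        positivity
      rw [if_pos hT] at h2
      exact h2
    have e2 : (1 - ∑ q ∈ Pz z, (if T q n then (1 : ℝ) else 0)) * gen Q l1 (ind S') ≤ 0 :=
      mul_nonpos_of_nonpos_of_nonneg (by linarith) h1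
    nlinarith

/-- the weight of a difference -/
noncomputable def om (n : ℤ) : ℝ := 25 ^ (n.natAbs.primeFactors.card)

lemma om_neg (n : ℤ) : om (-n) = om n := by
  unfold om
  rw [Int.natAbs_neg]

lemma om_pos (n : ℤ) : 0 < om n := by
  unfold om
  positivity

open Classical in
/-- the upper bound for the pair sum -/
lemma pair_upper_w (A Q R : Finset ℕ) (c : ℕ → ℝ) (z : ℕ) (X F : ℤ → ℝ) (D0 : ℝ)
    (hF : ∀ n, F n ≤ if Good T S Q R c z n then X n ^ 2 else 0)
    (h0 : |X 0| ≤ D0)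
    (h1 : ∀ n : ℤ, n ≠ 0 → Good T S Q R c z n → X n ^ 2 ≤ om n) :
    PS A F ≤ D0 ^ 2 * A.card + ∑ x ∈ (A ×ˢ A).filter (fun x : ℕ × ℕ => x.1 ≠ x.2 ∧
      Good T S Q R c z ((x.2 : ℤ) - x.1)), om ((x.2 : ℤ) - x.1) := by
  have hpt : ∀ a ∈ A, ∀ b ∈ A, F ((b : ℤ) - a) ≤ (if a = b then D0 ^ 2 else 0) +
      (if a ≠ b ∧ Good T S Q R c z ((b : ℤ) - a) then om ((b : ℤ) - a) else 0) := by
    intro a _ b _
    refine (hF _).trans ?_
    by_cases hab : a = b
    · subst hab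
      rw [if_pos (rfl : a = a), if_neg (fun h : a ≠ a ∧ Good T S Q R c z ((a : ℤ) - a) => h.1 rfl), add_zero, sub_self]
      split_ifs
      · rw [← sq_abs]
        exact pow_le_pow_left₀ (abs_nonneg _) h0 2
      · positivity
    · rw [if_neg hab, zero_add]
      by_cases hg : Good T S Q R c z ((b : ℤ) - a)
      · rw [if_pos hg, if_pos ⟨hab, hg⟩]
        apply h1 _ _ hg
        intro h
        apply hab
        omega
      · rw [if_neg hg, if_neg (fun h => hg h.2)]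
  unfold PS
  refine (sum_le_sum fun a ha => sum_le_sum fun b hb => hpt a ha b hb).trans ?_
  rw [sum_congr rfl fun a _ => sum_add_distrib, sum_add_distrib]
  apply add_le_add
  · have : ∀ a ∈ A, ∑ b ∈ A, (if a = b then D0 ^ 2 else 0) = D0 ^ 2 := by
      intro a ha
      rw [sum_ite_eq A a, if_pos ha]
    rw [sum_congr rfl this, sum_const, nsmul_eq_mul, mul_comm]
  · rw [sum_filter, ← sum_product']

/-- the bound for the weight of a good difference -/
lemma Lam_om (z : ℕ) (L : ℝ) (hL : 0 < L) (n : ℤ) (hn : n ≠ 0) (hgood : ∀ q ∈ Pz z, ¬ T q n) :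
    Lam (Pz z) L (4 : ℕ) T n ^ 2 ≤ om n := by
  classical
  obtain ⟨h0, h1⟩ := Lam_nonneg_le (Pz z) L (4 : ℕ) hL (Nat.cast_nonneg 4) T n hgood
  have h2 : ∏ p ∈ Pz z, (if (p : ℤ) ∣ n then 1 + ((4 : ℕ) : ℝ) else 1) ≤ 5 ^ (n.natAbs.primeFactors.card) := by
    rw [prod_ite, prod_const, prod_const_one, mul_one]
    have e : (1 + ((4 : ℕ) : ℝ)) = 5 := by norm_num
    rw [e]
    apply pow_le_pow_right₀ (by norm_num)
    apply card_le_card
    intro p hp
    obtain ⟨hp1, hp2⟩ := mem_filter.1 hp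
    rw [Nat.mem_primeFactors]
    exact ⟨(mem_filter.1 hp1).2, Int.natCast_dvd.1 hp2, Int.natAbs_ne_zero.2 hn⟩
  calc Lam (Pz z) L (4 : ℕ) T n ^ 2 ≤ (5 ^ (n.natAbs.primeFactors.card)) ^ 2 :=
        pow_le_pow_left₀ h0 (h1.trans h2) 2
    _ = om n := by
        unfold om
        rw [← pow_mul, mul_comm, pow_mul]
        norm_num

end Pool.Agent.H16.P5
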