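import Pool.Agent.H97.P3.Tw100

/-!
# The Fourier identity with conditions at the large primes which are not even (after helper13)
-/

set_option autoImplicit false

namespace Pool.Agent.H16.P5

open Finset
open Pool.Agent.H14.VC
open Pool.Agent.H13.P3 (iW Bf)
open Pool.Agent.Helper112 (ee ls_ee_zero ls_ee_add ls_ee_int)
open Pool.Agent.H14.SK (sum_ee norm_ee pair_ee ee_eq_one_iff)

open Classical in
/-- the exponential sum of a set of residues -/
noncomputable def cS (T : ℤ → Prop) (p x : ℕ) : ℂ :=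
  ∑ r ∈ (range p).filter (fun r : ℕ => T r), ee (-((r : ℝ) * x / p))

open Classical in
lemma cS_abs (T : ℤ → Prop) (p x : ℕ) : ‖cS T p x‖ ≤ ((range p).filter (fun r : ℕ => T r)).card := by
  unfold cS
  refine (norm_sum_le _ _).trans ?_
  rw [sum_congr rfl fun r _ => norm_ee _, sum_const, nsmul_eq_mul, mul_one]

open Classical in
lemma cS_zero (T : ℤ → Prop) (p : ℕ) : cS T p 0 = (((range p).filter (fun r : ℕ => T r)).card : ℂ) := by
  unfold cS
  have : ∀ r ∈ (range p).filter (fun r : ℕ => T r), ee (-((r : ℝ) * (0 : ℕ) / p)) = 1 := by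
    intro r _
    rw [Nat.cast_zero, mul_zero, zero_div, neg_zero, ls_ee_zero]
  rw [sum_congr rfl this, sum_const, nsmul_eq_mul, mul_one]

open Classical in
lemma cS_eq (T : ℤ → Prop) (p : ℕ) (hp : 0 < p) (per : ∀ n m : ℤ, (p : ℤ) ∣ n - m → (T n ↔ T m)) (n : ℤ) :
    ∑ x ∈ range p, cS T p x * ee ((n : ℝ) * x / p) = if T n then (p : ℂ) else 0 := by
  have h1 : ∀ x ∈ range p, cS T p x * ee ((n : ℝ) * x / p) =
      ∑ r ∈ (range p).filter (fun r : ℕ => T r), ee (((n - r : ℤ) : ℝ) * x / p) := by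
    intro x _
    unfold cS
    rw [sum_mul]
    apply sum_congr rfl
    intro r _
    rw [← ls_ee_add]
    congr 1
    push_cast; ring
  rw [sum_congr rfl h1, sum_comm]
  have h2 : ∀ r ∈ (range p).filter (fun r : ℕ => T r), ∑ x ∈ range p, ee (((n - r : ℤ) : ℝ) * x / p) =
      (p : ℂ) * (if (p : ℤ) ∣ n - r then 1 else 0) := by
    intro r _
    rw [sum_ee p hp]
    split_ifs <;> ring
  rw [sum_congr rfl h2, ← mul_sum]
  have hm0 : 0 ≤ n % (p : ℤ) := Int.emod_nonneg n (by exact_mod_cast hp.ne')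
  have hm1 : n % (p : ℤ) < p := Int.emod_lt_of_pos n (by exact_mod_cast hp)
  set r0 : ℕ := (n % (p : ℤ)).toNat with hr0
  have hr0' : (r0 : ℤ) = n % (p : ℤ) := Int.toNat_of_nonneg hm0
  have hr0p : r0 < p := by omega
  have hdv : (p : ℤ) ∣ n - r0 := by
    rw [hr0']
    exact Int.dvd_self_sub_emod
  have huniq : ∀ r : ℕ, r < p → ((p : ℤ) ∣ n - r) → r = r0 := by
    intro r hr hd
    have h3 : (p : ℤ) ∣ (r : ℤ) - r0 := by
      have := dvd_sub hdv hd
      have e : (n - r0 : ℤ) - (n - r) = r - r0 := by ring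
      rwa [e] at this
    have h4 := Int.eq_zero_of_abs_lt_dvd h3 (by rw [abs_lt]; constructor <;> omega)
    omega
  by_cases hT : T n
  · rw [if_pos hT]
    have hTr : T r0 := (per n r0 hdv).1 hT
    rw [sum_eq_single r0]
    · rw [if_pos hdv, mul_one]
    · intro r hr hne
      rw [if_neg]
      intro hd
      exact hne (huniq r (mem_range.1 (mem_filter.1 hr).1) hd)
    · intro h
      exact absurd (mem_filter.2 ⟨mem_range.2 hr0p, hTr⟩) h
  · rw [if_neg hT, sum_eq_zero, mul_zero]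
    intro r hr
    rw [if_neg]
    intro hd
    exact hT ((per n r hd).2 (mem_filter.1 hr).2)

/-- the local coefficients of a set of large primes -/
noncomputable def LS (W : Finset ℕ) (S : ℤ → Prop) (p x : ℕ) : ℂ :=
  if p ∈ W then cS S p x / p else if x = 0 then 1 else 0

/-- the Fourier coefficient of a set of large primes -/
noncomputable def KS (S : ℕ → ℤ → Prop) (Q W : Finset ℕ) (x : ℕ → ℕ) : ℂ :=
  ∏ p ∈ Q, LS W (S p) p (x p)

open Classical in
lemma LS_eq (W : Finset ℕ) (S : ℤ → Prop) (p : ℕ) (hp : 0 < p)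
    (per : ∀ n m : ℤ, (p : ℤ) ∣ n - m → (S n ↔ S m)) (n : ℤ) :
    ∑ x ∈ range p, LS W S p x * ee ((n : ℝ) * x / p) = if p ∈ W then (if S n then 1 else 0) else 1 := by
  have hpc : (p : ℂ) ≠ 0 := by exact_mod_cast hp.ne'
  unfold LS
  by_cases h : p ∈ W
  · simp only [if_pos h]
    have h1 : ∀ x ∈ range p, cS S p x / p * ee ((n : ℝ) * x / p) = (cS S p x * ee ((n : ℝ) * x / p)) / p := by
      intro x _
      ring
    rw [sum_congr rfl h1, ← sum_div, cS_eq S p hp per n]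
    split_ifs
    · exact div_self hpc
    · exact zero_div _
  · simp only [if_neg h]
    rw [sum_eq_single 0]
    · rw [if_pos rfl, Nat.cast_zero, mul_zero, zero_div, ls_ee_zero, one_mul]
    · intro x _ hx
      rw [if_neg hx, zero_mul]
    · intro h0
      exact absurd (mem_range.2 hp) h0

section
variable (A P Q : Finset ℕ) (T S : ℕ → ℤ → Prop) (X : Finset (ℕ → ℕ)) (W : Finset ℕ)

/-- `f` has the Fourier coefficients `fh` on `P` -/
def Ex (f : ℤ → ℝ) (fh : (ℕ → ℕ) → ℝ) : Prop :=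
  PS A (fun n => f n * iW S W n) = ∑ x ∈ X, fh x * ((KS S Q W x).re * En A (P ∪ Q) x)

lemma Ex.smul {f : ℤ → ℝ} {fh : (ℕ → ℕ) → ℝ} (c : ℝ) (h : Ex A P Q S X W f fh) :
    Ex A P Q S X W (fun n => c * f n) (fun x => c * fh x) := by
  unfold Ex at h ⊢
  have e : (fun n => c * f n * iW S W n) = fun n => c * (f n * iW S W n) := by
    funext n; ring
  rw [e, PS_mul, h, mul_sum]
  apply sum_congr rfl
  intro x _
  ring

lemma Ex.sub {f f' : ℤ → ℝ} {fh fh' : (ℕ → ℕ) → ℝ} (h : Ex A P Q S X W f fh) (h' : Ex A P Q S X W f' fh') :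
    Ex A P Q S X W (fun n => f n - f' n) (fun x => fh x - fh' x) := by
  unfold Ex at h h' ⊢
  have e : (fun n => (f n - f' n) * iW S W n) = fun n => f n * iW S W n - f' n * iW S W n := by
    funext n; ring
  rw [e, PS_sub, h, h', ← sum_sub_distrib]
  apply sum_congr rfl
  intro x _
  ring

lemma Ex.sum {ι : Type*} (s : Finset ι) {f : ι → ℤ → ℝ} {fh : ι → (ℕ → ℕ) → ℝ}
    (h : ∀ i ∈ s, Ex A P Q S X W (f i) (fh i)) :
    Ex A P Q S X W (fun n => ∑ i ∈ s, f i n) (fun x => ∑ i ∈ s, fh i x) := by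
  unfold Ex at h ⊢
  have e : (fun n => (∑ i ∈ s, f i n) * iW S W n) = fun n => ∑ i ∈ s, f i n * iW S W n := by
    funext n; rw [sum_mul]
  rw [e, PS_sum, sum_congr rfl h, sum_comm]
  apply sum_congr rfl
  intro x _
  rw [sum_mul]

lemma Ex.prod (hP : ∀ p ∈ P, p.Prime) (hQ : ∀ p ∈ Q, p.Prime) (hPQ : Disjoint P Q)
    (per : ∀ p : ℕ, ∀ n m : ℤ, (p : ℤ) ∣ n - m → (T p n ↔ T p m)) (even : ∀ p : ℕ, ∀ n : ℤ, T p n ↔ T p (-n))
    (perS : ∀ p : ℕ, ∀ n m : ℤ, (p : ℤ) ∣ n - m → (S p n ↔ S p m))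
    (hX : ∀ f : ℕ → ℕ → ℂ, ∏ p ∈ P ∪ Q, ∑ j ∈ range p, f p j = ∑ x ∈ X, ∏ p ∈ P ∪ Q, f p (x p))
    (hW : W ⊆ Q) (c : ℕ → ℝ × ℝ × ℝ) :
    Ex A P Q S X W (fun n => ∏ p ∈ P, ev (c p) (T p) p n) (fun x => ∏ p ∈ P, LC (c p) (T p) p (x p)) := by
  classical
  have hQn : ∀ p ∈ Q, p ∉ P := fun p hp hp' => (disjoint_left.1 hPQ) hp' hp
  -- the local coefficients
  set co : ℕ → ℕ → ℂ := fun p j => if p ∈ P then ((LC (c p) (T p) p j : ℝ) : ℂ) else LS W (S p) p j with hco
  have h1 : ∀ n : ℤ, (((∏ p ∈ P, ev (c p) (T p) p n) * iW S W n : ℝ) : ℂ) =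
      ∑ x ∈ X, (((∏ p ∈ P, LC (c p) (T p) p (x p) : ℝ) : ℂ) * KS S Q W x) * ee ((n : ℝ) * xi (P ∪ Q) x) := by
    intro n
    have e1 : (((∏ p ∈ P, ev (c p) (T p) p n) * iW S W n : ℝ) : ℂ) =
        ∏ p ∈ P ∪ Q, ∑ j ∈ range p, co p j * ee ((n : ℝ) * j / p) := by
      rw [prod_union hPQ, Complex.ofReal_mul]
      congr 1
      · rw [Complex.ofReal_prod]
        apply prod_congr rfl
        intro p hp
        rw [ev_eq (c p) (T p) p (hP p hp).pos (per p) (even p) n]
        apply sum_congr rfl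
        intro j _
        rw [hco]
        simp only
        rw [if_pos hp]
      · have e2 : ∀ p ∈ Q, ∑ j ∈ range p, co p j * ee ((n : ℝ) * j / p) =
            if p ∈ W then (if S p n then (1 : ℂ) else 0) else 1 := by
          intro p hp
          rw [← LS_eq W (S p) p (hQ p hp).pos (perS p) n]
          apply sum_congr rfl
          intro j _
          rw [hco]
          simp only
          rw [if_neg (hQn p hp)]
        rw [prod_congr rfl e2]
        unfold iW
        rw [Complex.ofReal_prod, prod_ite_mem, inter_eq_right.2 hW]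
        apply prod_congr rfl
        intro p _
        split_ifs <;> simp
    rw [e1, hX]
    apply sum_congr rfl
    intro x _
    rw [prod_mul_distrib]
    congr 1
    · rw [prod_union hPQ, Complex.ofReal_prod]
      unfold KS
      congr 1
      · apply prod_congr rfl
        intro p hp
        rw [hco]
        simp only
        rw [if_pos hp]
      · apply prod_congr rfl
        intro p hp
        rw [hco]
        simp only
        rw [if_neg (hQn p hp)]
    · unfold xi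
      rw [mul_sum, ee_sum]
      apply prod_congr rfl
      intro p _
      congr 1
      ring
  have h2 : ((PS A (fun n => (∏ p ∈ P, ev (c p) (T p) p n) * iW S W n) : ℝ) : ℂ) =
      ∑ x ∈ X, (((∏ p ∈ P, LC (c p) (T p) p (x p) : ℝ) : ℂ) * KS S Q W x) * ((En A (P ∪ Q) x : ℝ) : ℂ) := by
    unfold PS
    rw [Complex.ofReal_sum, sum_congr rfl fun a _ => Complex.ofReal_sum _ _]
    rw [sum_congr rfl fun a _ => sum_congr rfl fun b _ => h1 _]
    rw [sum_congr rfl fun a _ => sum_comm, sum_comm]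
    apply sum_congr rfl
    intro x _
    rw [sum_congr rfl fun a _ => (mul_sum _ _ _).symm, ← mul_sum]
    have h4 := pair_ee A (xi (P ∪ Q) x) 0
    simp only [sub_zero, Int.cast_zero, zero_mul, neg_zero, ls_ee_zero, one_mul] at h4
    congr 1
  unfold Ex
  have h3 := congrArg Complex.re h2
  rw [Complex.ofReal_re, Complex.re_sum] at h3
  rw [h3]
  apply sum_congr rfl
  intro x _
  rw [Complex.re_mul_ofReal, Complex.re_ofReal_mul]
  ring

variable (hP : ∀ p ∈ P, p.Prime) (hQ : ∀ p ∈ Q, p.Prime) (hPQ : Disjoint P Q)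
    (per : ∀ p : ℕ, ∀ n m : ℤ, (p : ℤ) ∣ n - m → (T p n ↔ T p m)) (even : ∀ p : ℕ, ∀ n : ℤ, T p n ↔ T p (-n))
    (perS : ∀ p : ℕ, ∀ n m : ℤ, (p : ℤ) ∣ n - m → (S p n ↔ S p m))
    (h0 : ∀ p ∈ P, ¬ T p 0)
    (hX : ∀ f : ℕ → ℕ → ℂ, ∏ p ∈ P ∪ Q, ∑ j ∈ range p, f p j = ∑ x ∈ X, ∏ p ∈ P ∪ Q, f p (x p))
    (hW : W ⊆ Q)

include hP hQ hPQ per even perS h0 hX hW

lemma Ex_sq (L g : ℝ) : Ex A P Q S X W (fun n => Lam P L g T n ^ 2) (Bf P L g T) := by
  classical
  have hd : ∀ n : ℤ, ∀ p ∈ P, ¬ ((p : ℤ) ∣ n ∧ T p n) := by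
    rintro n p hp ⟨h1, h2⟩
    exact h0 p hp ((per p n 0 (by simpa using h1)).1 h2)
  have h1 : (fun n => Lam P L g T n ^ 2) = fun n => ∑ U ∈ P.powerset, ∑ V ∈ P.powerset, th L U * th L V *
        ∏ p ∈ P, ev (cc g U V p) (T p) p n := by
    funext n
    unfold Lam
    rw [sq, sum_mul_sum]
    apply sum_congr rfl
    intro U hU
    apply sum_congr rfl
    intro V hV
    rw [prod_cc P g T n (hd n) U V (mem_powerset.1 hU) (mem_powerset.1 hV)]
    ring
  have h2 : Bf P L g T = fun x => ∑ U ∈ P.powerset, ∑ V ∈ P.powerset, th L U * th L V *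
        ∏ p ∈ P, LC (cc g U V p) (T p) p (x p) := by
    funext x
    unfold Bf BB
    apply sum_congr rfl
    intro U _
    apply sum_congr rfl
    intro V _
    congr 1
    apply prod_congr rfl
    intro p _
    rw [mm_LC]
  rw [h1, h2]
  apply Ex.sum
  intro U _
  apply Ex.sum
  intro V _
  apply Ex.smul
  exact Ex.prod A P Q T S X W hP hQ hPQ per even perS hX hW _

lemma Ex_wt (L g : ℝ) : Ex A P Q S X W (wt P L g T) (Cf P L g T) := by
  classical
  have hd : ∀ n : ℤ, ∀ p ∈ P, ¬ ((p : ℤ) ∣ n ∧ T p n) := by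
    rintro n p hp ⟨h1, h2⟩
    exact h0 p hp ((per p n 0 (by simpa using h1)).1 h2)
  have h1 : wt P L g T = fun n => (∑ U ∈ P.powerset, ∑ V ∈ P.powerset, th L U * th L V *
        ∏ p ∈ P, ev (cc g U V p) (T p) p n) -
      ∑ q ∈ P, ∑ U ∈ (P.erase q).powerset, ∑ V ∈ (P.erase q).powerset,
        (th L U - th L (insert q U)) * (th L V - th L (insert q V)) *
        ∏ p ∈ P, ev (if p = q then (0, 0, 1) else cc g U V p) (T p) p n := by
    funext n
    exact wt_id P L g T n (hd n)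
  have h2 : Cf P L g T = fun x => (∑ U ∈ P.powerset, ∑ V ∈ P.powerset, th L U * th L V *
        ∏ p ∈ P, LC (cc g U V p) (T p) p (x p)) -
      ∑ q ∈ P, ∑ U ∈ (P.erase q).powerset, ∑ V ∈ (P.erase q).powerset,
        (th L U - th L (insert q U)) * (th L V - th L (insert q V)) *
        ∏ p ∈ P, LC (if p = q then (0, 0, 1) else cc g U V p) (T p) p (x p) := by
    funext x
    unfold Cf CC BB
    congr 1
    · apply sum_congr rfl
      intro U _
      apply sum_congr rfl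
      intro V _
      congr 1
      apply prod_congr rfl
      intro p _
      rw [mm_LC]
    · apply sum_congr rfl
      intro q hq
      rw [mul_sum]
      apply sum_congr rfl
      intro U _
      rw [mul_sum]
      apply sum_congr rfl
      intro V _
      rw [← mul_prod_erase P (fun p => LC (if p = q then ((0, 0, 1) : ℝ × ℝ × ℝ) else cc g U V p) (T p) p (x p)) hq,
          if_pos rfl]
      have e : ∏ p ∈ P.erase q, LC (if p = q then ((0, 0, 1) : ℝ × ℝ × ℝ) else cc g U V p) (T p) p (x p) =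
          ∏ p ∈ P.erase q, mm (fun p => LC (1, 0, 0) (T p) p (x p)) (fun p => LC (0, g, -1) (T p) p (x p))
          (fun p => LC (0, g ^ 2, 1) (T p) p (x p)) U V p := by
        apply prod_congr rfl
        intro p hp
        rw [if_neg (ne_of_mem_erase hp), mm_LC]
      rw [e]
      ring
  rw [h1, h2]
  apply Ex.sub
  · apply Ex.sum
    intro U _
    apply Ex.sum
    intro V _
    apply Ex.smul
    exact Ex.prod A P Q T S X W hP hQ hPQ per even perS hX hW _
  · apply Ex.sum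
    intro q _
    apply Ex.sum
    intro U _
    apply Ex.sum
    intro V _
    apply Ex.smul
    exact Ex.prod A P Q T S X W hP hQ hPQ per even perS hX hW _

end

/-- the coefficient of a sieve weight -/
noncomputable def mu (S : ℕ → ℤ → Prop) (Q : Finset ℕ) (l : Finset ℕ → ℝ) (x : ℕ → ℕ) : ℝ :=
  ∑ W ∈ Q.powerset, l W * (KS S Q W x).re

open Classical in
theorem identS (A P Q : Finset ℕ) (T S : ℕ → ℤ → Prop) (X : Finset (ℕ → ℕ)) (hP : ∀ p ∈ P, p.Prime)
    (hQ : ∀ p ∈ Q, p.Prime) (hPQ : Disjoint P Q)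
    (per : ∀ p : ℕ, ∀ n m : ℤ, (p : ℤ) ∣ n - m → (T p n ↔ T p m)) (even : ∀ p : ℕ, ∀ n : ℤ, T p n ↔ T p (-n))
    (perS : ∀ p : ℕ, ∀ n m : ℤ, (p : ℤ) ∣ n - m → (S p n ↔ S p m))
    (h0 : ∀ p ∈ P, ¬ T p 0)
    (hX : ∀ f : ℕ → ℕ → ℂ, ∏ p ∈ P ∪ Q, ∑ j ∈ range p, f p j = ∑ x ∈ X, ∏ p ∈ P ∪ Q, f p (x p))
    (L g : ℝ) (l1 l2 : Finset ℕ → ℝ) :
    PS A (fun n => Lam P L g T n ^ 2 * ((1 - ∑ q ∈ P, (if T q n then (1 : ℝ) else 0)) *
        (∑ U ∈ Q.powerset, l1 U * ∏ p ∈ U, (if S p n then (1 : ℝ) else 0)) -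
        (∑ U ∈ Q.powerset, l2 U * ∏ p ∈ U, (if S p n then (1 : ℝ) else 0)))) =
      ∑ x ∈ X, (Cf P L g T x * mu S Q l1 x - Bf P L g T x * mu S Q l2 x) * En A (P ∪ Q) x := by
  have e1 : (fun n => Lam P L g T n ^ 2 * ((1 - ∑ q ∈ P, (if T q n then (1 : ℝ) else 0)) *
        (∑ U ∈ Q.powerset, l1 U * ∏ p ∈ U, (if S p n then (1 : ℝ) else 0)) -
        (∑ U ∈ Q.powerset, l2 U * ∏ p ∈ U, (if S p n then (1 : ℝ) else 0)))) =
      fun n => (∑ W ∈ Q.powerset, l1 W * (wt P L g T n * iW S W n)) -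
        ∑ W ∈ Q.powerset, l2 W * (Lam P L g T n ^ 2 * iW S W n) := by
    funext n
    unfold wt iW
    rw [mul_sub, ← mul_assoc, mul_sum, mul_sum]
    congr 1
    · apply sum_congr rfl
      intro W _
      ring
    · apply sum_congr rfl
      intro W _
      ring
  rw [e1, PS_sub, PS_sum, PS_sum]
  have e2 : ∀ W ∈ Q.powerset, PS A (fun n => l1 W * (wt P L g T n * iW S W n)) =
      ∑ x ∈ X, l1 W * (Cf P L g T x * ((KS S Q W x).re * En A (P ∪ Q) x)) := by
    intro W hW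
    have h := Ex_wt A P Q T S X W hP hQ hPQ per even perS h0 hX (mem_powerset.1 hW) L g
    unfold Ex at h
    rw [PS_mul, h, mul_sum]
  have e3 : ∀ W ∈ Q.powerset, PS A (fun n => l2 W * (Lam P L g T n ^ 2 * iW S W n)) =
      ∑ x ∈ X, l2 W * (Bf P L g T x * ((KS S Q W x).re * En A (P ∪ Q) x)) := by
    intro W hW
    have h := Ex_sq A P Q T S X W hP hQ hPQ per even perS h0 hX (mem_powerset.1 hW) L g
    unfold Ex at h
    rw [PS_mul, h, mul_sum]
  rw [sum_congr rfl e2, sum_congr rfl e3, sum_comm, sum_comm (s := Q.powerset), ← sum_sub_distrib]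
  apply sum_congr rfl
  intro x _
  unfold mu
  rw [sub_mul, mul_sum, mul_sum, sum_mul, sum_mul]
  congr 1
  · apply sum_congr rfl
    intro W _
    ring
  · apply sum_congr rfl
    intro W _
    ring

lemma mu_V (S : ℕ → ℤ → Prop) (Q : Finset ℕ) (l : Finset ℕ → ℝ) (x : ℕ → ℕ) (hx : ∀ p ∈ Q, x p = 0) :
    mu S Q l x = Pool.Agent.H13.P3.Vd S Q l := by
  classical
  unfold mu Pool.Agent.H13.P3.Vd
  apply sum_congr rfl
  intro U hU
  congr 1
  have hUs := mem_powerset.1 hU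
  have h1 : KS S Q U x = ((∏ p ∈ U, ((((range p).filter (fun r : ℕ => S p r)).card : ℝ) / p) : ℝ) : ℂ) := by
    unfold KS
    rw [← prod_sdiff hUs, Complex.ofReal_prod]
    have h2 : ∏ p ∈ Q \ U, LS U (S p) p (x p) = 1 := by
      apply prod_eq_one
      intro p hp
      unfold LS
      rw [if_neg (mem_sdiff.1 hp).2, if_pos (hx p (mem_sdiff.1 hp).1)]
    rw [h2, one_mul]
    apply prod_congr rfl
    intro p hp
    unfold LS
    rw [if_pos hp, hx p (hUs hp), cS_zero]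
    push_cast
    rfl
  rw [h1, Complex.ofReal_re]

lemma mu_zeroD (S : ℕ → ℤ → Prop) (Q : Finset ℕ) (hQ : ∀ p ∈ Q, p.Prime) (l : Finset ℕ → ℝ) (x : ℕ → ℕ) (D : ℕ)
    (hl : ∀ U ⊆ Q, D < ∏ p ∈ U, p → l U = 0) (h : D < qx Q x) : mu S Q l x = 0 := by
  classical
  unfold mu
  apply sum_eq_zero
  intro U hU
  by_contra hc
  have hc1 := left_ne_zero_of_mul hc
  have hc2 := right_ne_zero_of_mul hc
  have hUs := mem_powerset.1 hU
  have h1 : ¬ D < ∏ p ∈ U, p := fun h => hc1 (hl U hUs h)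
  have h2 : Q.filter (fun p => x p ≠ 0) ⊆ U := by
    intro p hp
    rw [mem_filter] at hp
    by_contra hpU
    apply hc2
    have h3 : KS S Q U x = 0 := by
      unfold KS
      apply prod_eq_zero hp.1
      unfold LS
      rw [if_neg hpU, if_neg hp.2]
    rw [h3, Complex.zero_re]
  have h3 : qx Q x ≤ ∏ p ∈ U, p := by
    unfold qx
    apply Finset.prod_le_prod_of_subset_of_one_le' h2
    intro p hp _
    exact (hQ p (hUs hp)).pos
  omega

open Classical in
lemma mu_bd (S : ℕ → ℤ → Prop) (Q : Finset ℕ) (hQ : ∀ p ∈ Q, p.Prime) (g : ℝ) (hg : 1 ≤ g)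
    (hS : ∀ p ∈ Q, (((range p).filter (fun r : ℕ => S p r)).card : ℝ) ≤ g) (l : Finset ℕ → ℝ) (x : ℕ → ℕ) (c k : ℝ)
    (hl : ∀ U ⊆ Q, |l U| ≤ c) (hk : ∑ p ∈ Q, 1 / (p : ℝ) ≤ k) :
    |mu S Q l x| ≤ c * Real.exp (g * k) * g ^ (Q.filter (fun p => x p ≠ 0)).card / (qx Q x : ℕ) := by
  have hp0 : ∀ p ∈ Q, (0 : ℝ) < p := fun p hp => by exact_mod_cast (hQ p hp).pos
  have hc0 : 0 ≤ c := (abs_nonneg _).trans (hl ∅ (empty_subset _))
  have hbasic : ∀ p ∈ Q, ‖cS (S p) p (x p)‖ ≤ g := fun p hp => (cS_abs _ _ _).trans (hS p hp)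
  have h1 : |mu S Q l x| ≤ ∑ U ∈ Q.powerset, c * ((∏ p ∈ U, g / (p : ℝ)) *
      ∏ p ∈ Q \ U, (if x p = 0 then (1 : ℝ) else 0)) := by
    unfold mu
    refine (abs_sum_le_sum_abs _ _).trans ?_
    apply sum_le_sum
    intro U hU
    have hUs := mem_powerset.1 hU
    rw [abs_mul]
    apply mul_le_mul (hl U hUs) _ (abs_nonneg _) hc0
    refine (Complex.abs_re_le_norm _).trans ?_
    unfold KS
    rw [norm_prod, ← prod_sdiff hUs, mul_comm]
    apply mul_le_mul
    · apply Finset.prod_le_prod (fun p _ => norm_nonneg _)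
      intro p hp
      unfold LS
      rw [if_pos hp, norm_div, Complex.norm_natCast]
      exact div_le_div_of_nonneg_right (hbasic p (hUs hp)) (hp0 p (hUs hp)).le
    · apply Finset.prod_le_prod (fun p _ => norm_nonneg _)
      intro p hp
      unfold LS
      rw [if_neg (mem_sdiff.1 hp).2]
      split_ifs <;> simp
    · exact prod_nonneg fun p _ => norm_nonneg _
    · exact prod_nonneg fun p hp => div_nonneg (by linarith) (Nat.cast_nonneg _)
  refine h1.trans ?_
  rw [← mul_sum, ← Finset.prod_add (fun p : ℕ => g / (p : ℝ)) (fun p => if x p = 0 then (1 : ℝ) else 0) Q]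
  have h2 : ∀ p ∈ Q, g / (p : ℝ) + (if x p = 0 then (1 : ℝ) else 0) ≤
      Real.exp (g * (1 / p)) * (if x p ≠ 0 then g / (p : ℝ) else 1) := by
    intro p hp
    have hpp := hp0 p hp
    have h3 := Real.add_one_le_exp (g * (1 / (p : ℝ)))
    have e : g * (1 / (p : ℝ)) = g / p := by ring
    have hgp : 0 ≤ g / (p : ℝ) := by positivity
    by_cases h : x p = 0
    · rw [if_pos h, if_neg (not_not.2 h), mul_one]
      linarith
    · rw [if_neg h, if_pos h, add_zero]
      rw [e] at h3 ⊢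
      nlinarith
  have h3 : ∏ p ∈ Q, (g / (p : ℝ) + (if x p = 0 then (1 : ℝ) else 0)) ≤
      Real.exp (g * k) * (g ^ (Q.filter (fun p => x p ≠ 0)).card / (qx Q x : ℕ)) := by
    refine (Finset.prod_le_prod (fun p hp => ?_) h2).trans ?_
    · have := hp0 p hp
      have : 0 ≤ g / (p : ℝ) := by positivity
      split_ifs <;> linarith
    rw [prod_mul_distrib]
    apply mul_le_mul
    · rw [← Real.exp_sum, ← mul_sum]
      apply Real.exp_le_exp.2
      exact mul_le_mul_of_nonneg_left hk (by linarith)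
    · rw [← prod_filter, prod_div_distrib, prod_const]
      unfold qx
      push_cast
      exact le_rfl
    · apply prod_nonneg
      intro p hp
      have := hp0 p hp
      have : 0 ≤ g / (p : ℝ) := by positivity
      split_ifs
      · exact this
      · norm_num
    · exact (Real.exp_pos _).le
  calc c * ∏ p ∈ Q, (g / (p : ℝ) + (if x p = 0 then (1 : ℝ) else 0)) ≤
      c * (Real.exp (g * k) * (g ^ (Q.filter (fun p => x p ≠ 0)).card / (qx Q x : ℕ))) :=
        mul_le_mul_of_nonneg_left h3 hc0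
    _ = _ := by ring

open Classical in
/-- the coefficient of a sieve weight of level `D ≤ z ^ k` on primes above `z` -/
lemma mu_bound (S : ℕ → ℤ → Prop) (Q : Finset ℕ) (l : Finset ℕ → ℝ) (z D k g : ℕ) (hz : 2 ≤ z) (hg : 1 ≤ g)
    (hQ : ∀ p ∈ Q, p.Prime ∧ z < p) (hs : ∑ p ∈ Q, 1 / (p : ℝ) ≤ k)
    (hS : ∀ p ∈ Q, ((range p).filter (fun r : ℕ => S p r)).card ≤ g)
    (hl : ∀ U ⊆ Q, |l U| ≤ k) (hlD : ∀ U ⊆ Q, D < ∏ p ∈ U, p → l U = 0) (hD : D ≤ z ^ k) (x : ℕ → ℕ) :
    |mu S Q l x| ≤ k * (g : ℝ) ^ k * Real.exp (g * k) / (qx Q x : ℕ) ∧ (D < qx Q x → mu S Q l x = 0) := by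
  have hQ' : ∀ p ∈ Q, p.Prime := fun p hp => (hQ p hp).1
  have hgR : (1 : ℝ) ≤ g := by exact_mod_cast hg
  have hzero : D < qx Q x → mu S Q l x = 0 := mu_zeroD S Q hQ' l x D hlD
  refine ⟨?_, hzero⟩
  have hq0 : (0 : ℝ) < (qx Q x : ℕ) := by exact_mod_cast qx_pos Q hQ' x
  by_cases hDx : D < qx Q x
  · rw [hzero hDx, abs_zero]
    positivity
  push Not at hDx
  have hcard : (Q.filter (fun p => x p ≠ 0)).card ≤ k := by
    have h1 : z ^ (Q.filter (fun p => x p ≠ 0)).card ≤ qx Q x := by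
      unfold qx
      rw [← prod_const]
      apply Finset.prod_le_prod'
      intro p hp
      exact (hQ p (mem_filter.1 hp).1).2.le
    exact (Nat.pow_le_pow_iff_right (by omega)).1 (h1.trans (hDx.trans hD))
  have hSR : ∀ p ∈ Q, (((range p).filter (fun r : ℕ => S p r)).card : ℝ) ≤ g := fun p hp => by
    exact_mod_cast hS p hp
  refine (mu_bd S Q hQ' g hgR hSR l x k k hl hs).trans ?_
  apply div_le_div_of_nonneg_right _ hq0.le
  have h2 : (g : ℝ) ^ (Q.filter (fun p => x p ≠ 0)).card ≤ (g : ℝ) ^ k := pow_le_pow_right₀ hgR hcard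
  calc (k : ℝ) * Real.exp (g * k) * g ^ (Q.filter (fun p => x p ≠ 0)).card ≤
      k * Real.exp (g * k) * g ^ k := mul_le_mul_of_nonneg_left h2 (by positivity)
    _ = _ := by ring

end Pool.Agent.H16.P5
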