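import Pool.Agent.H16.P5.Quad
import Pool.Agent.H16.P4.Main
import Pool.Agent.H25.P5.Sq

/-!
# Quadratic polynomials at the shifted differences of a sparse set: three prime factors
-/

set_option autoImplicit false

namespace Pool.Agent.H16.P5

open Finset
open Pool.Agent.H14.VC
open Pool.Agent.H16.P3 (Dens RQ IQ)
open Pool.Agent.H16.P4 (AP omega3')

lemma om_le (δ : ℝ) (hδ : 0 < δ) : ∃ C : ℝ, 1 ≤ C ∧ ∀ n : ℤ, n ≠ 0 → om n ≤ C * (|n| : ℤ) ^ δ := by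
  classical
  obtain ⟨C, hC, h⟩ := omega_bound 24 δ hδ
  refine ⟨C, hC, fun n hn => ?_⟩
  have h1 := h n.natAbs.primeFactors (fun p hp => Nat.prime_of_mem_primeFactors hp) n hn
  refine le_trans (le_of_eq ?_) h1
  unfold om
  rw [prod_congr rfl (fun p hp => if_pos (Int.natCast_dvd.2 (Nat.dvd_of_mem_primeFactors hp))), prod_const]
  norm_num

/-- a good difference without square factors -/
lemma good_AP (a b c h : ℤ) (N : ℕ) (hN : 2 ≤ N) (z : ℕ) (hz2 : 2 ≤ z)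
    (n : ℤ) (hbound : (((qf a b c (h + n)).natAbs : ℕ) : ℝ) ≤ (N : ℝ) ^ 2)
    (hgood : Good (TQ a b c h) (SQ a b c h) (QT (SQ a b c h) z ((N : ℝ) ^ (10 / 11 : ℝ)))
      (RQ (QT (SQ a b c h) z ((N : ℝ) ^ (10 / 11 : ℝ))) (Real.log N / 10)) (cw4 N) z n)
    (hsq : ∀ p : ℕ, p.Prime → (N : ℝ) ^ (0.1 : ℝ) < p → (p : ℝ) ≤ (N : ℝ) ^ (0.99 : ℝ) →
      ¬ (p : ℤ) ^ 2 ∣ qf a b c (h + n)) : AP ((N : ℝ) ^ (0.1 : ℝ)) 3 (qf a b c (h + n)) := by
  classical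
  have hNR : (2 : ℝ) ≤ N := by exact_mod_cast hN
  have hN0 : (0 : ℝ) < N := by linarith
  have hN1 : (1 : ℝ) ≤ N := by linarith
  obtain ⟨q1, q2, q3⟩ := hgood
  set Q := QT (SQ a b c h) z ((N : ℝ) ^ (10 / 11 : ℝ)) with hQ
  set R := RQ Q (Real.log N / 10) with hR
  obtain ⟨m, hm⟩ : ∃ m : ℕ, m = (qf a b c (h + n)).natAbs := ⟨_, rfl⟩
  have hdv : ∀ p : ℕ, (p : ℤ) ∣ qf a b c (h + n) ↔ p ∣ m := by
    intro p
    rw [hm]
    exact Int.natCast_dvd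
  have hm0 : m ≠ 0 := by
    intro h0
    apply q1 2
    · rw [Pz, mem_filter, mem_Icc]
      exact ⟨⟨by norm_num, hz2⟩, Nat.prime_two⟩
    · unfold TQ
      apply Dvd.dvd.mul_right
      rw [hdv, h0]
      exact dvd_zero _
  have hbig : ∀ p : ℕ, p.Prime → p ∣ m → z < p := by
    intro p hp hd
    by_contra hc
    push Not at hc
    apply q1 p
    · rw [Pz, mem_filter, mem_Icc]
      exact ⟨⟨hp.pos, hc⟩, hp⟩
    · unfold TQ
      exact ((hdv p).2 hd).mul_right _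
  have hmemQ : ∀ p : ℕ, p.Prime → p ∣ m → (p : ℝ) ≤ (N : ℝ) ^ (10 / 11 : ℝ) → p ∈ Q := by
    intro p hp hd hle
    have h1 := hbig p hp hd
    refine mem_filter.2 ⟨mem_Icc.2 ⟨hp.pos, Nat.le_floor hle⟩, hp, h1, ?_⟩
    unfold rhoT
    rw [Ne, card_eq_zero, ← Ne, ← nonempty_iff_ne_empty]
    have hp0 : (p : ℤ) ≠ 0 := by exact_mod_cast hp.ne_zero
    refine ⟨(n % p).toNat, mem_filter.2 ⟨?_, ?_⟩⟩
    · rw [mem_range]
      have h2 := Int.emod_lt_of_pos n (by exact_mod_cast hp.pos : (0 : ℤ) < p)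
      have h3 := Int.emod_nonneg n hp0
      omega
    · rw [SQ_per a b c h p _ n]
      · exact (hdv p).2 hd
      · rw [Int.toNat_of_nonneg (Int.emod_nonneg n hp0)]
        exact (Int.dvd_sub_self_of_emod_eq rfl)
  have hrough : ∀ p : ℕ, p.Prime → p ∣ m → (N : ℝ) ^ (0.1 : ℝ) < p := by
    intro p hp hd
    by_contra hc
    push Not at hc
    have hp0 : (0 : ℝ) < p := by exact_mod_cast hp.pos
    apply q2 p
    · refine mem_filter.2 ⟨hmemQ p hp hd (hc.trans (Real.rpow_le_rpow_of_exponent_le hN1 (by norm_num))), ?_⟩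
      have h1 := Real.log_le_log hp0 hc
      rw [Real.log_rpow hN0] at h1
      linarith
    · exact (hdv p).2 hd
  refine ⟨fun p hp hd => hrough p hp ((hdv p).1 hd), ?_⟩
  rw [← hm] at hbound ⊢
  apply omega3' N hN m hm0 hbound hrough
  · intro p hp hple hd
    have hpm : p ∣ m := (dvd_pow_self p two_ne_zero).trans hd
    apply hsq p hp (hrough p hp hpm) hple
    have h1 : ((p ^ 2 : ℕ) : ℤ) ∣ qf a b c (h + n) := by
      rw [Int.natCast_dvd, ← hm]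
      exact hd
    exact_mod_cast h1
  · refine lt_of_le_of_lt (le_of_eq ?_) q3
    apply sum_congr
    · ext p
      rw [mem_filter, mem_filter, mem_sdiff, Nat.mem_primeFactors]
      constructor
      · rintro ⟨⟨hp, hd, _⟩, hl⟩
        have hp0 : (0 : ℝ) < p := by exact_mod_cast hp.pos
        have hple : (p : ℝ) ≤ (N : ℝ) ^ (10 / 11 : ℝ) := by
          rw [← Real.exp_log hp0, Real.rpow_def_of_pos hN0]
          apply Real.exp_le_exp.2
          linarith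
        refine ⟨⟨hmemQ p hp hd hple, ?_⟩, (hdv p).2 hd⟩
        intro h
        have h1 := (mem_filter.1 h).2
        have h2 := Real.log_lt_log (by positivity) (hrough p hp hd)
        rw [Real.log_rpow hN0] at h2
        linarith
      · rintro ⟨⟨hpQ, _⟩, hT⟩
        have h1 := mem_filter.1 hpQ
        have hp := h1.2.1
        refine ⟨⟨hp, (hdv p).1 hT, hm0⟩, ?_⟩
        have h2 := (mem_Icc.1 h1.1).2
        have h3 : (p : ℝ) ≤ (N : ℝ) ^ (10 / 11 : ℝ) := (Nat.le_floor_iff (by positivity)).1 h2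
        have hp0 : (0 : ℝ) < p := by exact_mod_cast hp.pos
        have h4 := Real.log_le_log hp0 h3
        rw [Real.log_rpow hN0] at h4
        exact h4
    · intro p _
      rfl

open Classical in
/-- sets in `[1, M]` -/
theorem power_wS_aux : ∃ c₀ : ℝ, 0 < c₀ ∧ ∀ a b c : ℤ, ¬ IsSquare (b ^ 2 - 4 * a * c) →
    ∃ M₀ : ℕ, ∀ M : ℕ, M₀ ≤ M → ∀ h : ℤ, |h| ≤ M →
      (∀ p : ℕ, p.Prime → (p : ℝ) ≤ (M : ℝ) ^ (0.000002 : ℝ) → ¬ (p : ℤ) ∣ qf a b c h) →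
      ∀ A ⊆ Icc 1 M, (M : ℝ) ^ (1 - 0.0000012 : ℝ) ≤ A.card →
      c₀ * (A.card : ℝ) ^ 2 ≤ ∑ x ∈ (A ×ˢ A).filter (fun x : ℕ × ℕ => x.1 ≠ x.2 ∧
        AP ((M : ℝ) ^ (0.1 : ℝ)) 3 (qf a b c (h + ((x.2 : ℤ) - x.1)))), om ((x.2 : ℤ) - x.1) := by
  obtain ⟨c₁, hc₁, H⟩ := good_pairs
  refine ⟨c₁ / 2, by positivity, ?_⟩
  intro a b c hD
  obtain ⟨N₁, hN₁⟩ := H 0.0000013 le_rfl
  obtain ⟨N₂, hN₂⟩ := Pool.Agent.H25.P5.squaresG a b c hD
  obtain ⟨N₃, hN₃⟩ := densS a b c hD (0.0015 / 900) (by norm_num) (by norm_num)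
  obtain ⟨C, hC1, hC⟩ := om_le 0.001 (by norm_num)
  obtain ⟨K, hK⟩ : ∃ K : ℕ, K = 4 * a.natAbs + 2 * b.natAbs + c.natAbs + 1 := ⟨_, rfl⟩
  have hK1 : 1 ≤ K := by omega
  have hKR : (1 : ℝ) ≤ K := by exact_mod_cast hK1
  have ten : ∀ t : ℝ, 0 < t → ∀ c : ℝ, ∀ᶠ N : ℕ in Filter.atTop, c ≤ (N : ℝ) ^ t := by
    intro t ht c
    exact ((tendsto_rpow_atTop ht).comp tendsto_natCast_atTop_atTop).eventually_ge_atTop c
  obtain ⟨M₁, hM₁⟩ := Filter.eventually_atTop.1 (((ten 0.0000001 (by norm_num) K).and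
    (ten 0.0025 (by norm_num) (2 * C / c₁))).and (ten (0.0015 / 900) (by norm_num) 3))
  refine ⟨max (max N₁ N₂) (max (max M₁ N₃) 3), ?_⟩
  intro M hM h hh hfree A hA hAc
  have b1 : N₁ ≤ M := (le_max_left _ _).trans ((le_max_left _ _).trans hM)
  have b2 : N₂ ≤ M := (le_max_right _ _).trans ((le_max_left _ _).trans hM)
  have b3 : M₁ ≤ M := (le_max_left _ _).trans ((le_max_left _ _).trans ((le_max_right _ _).trans hM))
  have b5 : N₃ ≤ M := (le_max_right _ _).trans ((le_max_left _ _).trans ((le_max_right _ _).trans hM))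
  have b4 : 3 ≤ M := (le_max_right _ _).trans ((le_max_right _ _).trans hM)
  obtain ⟨⟨g1, _⟩, _⟩ := hM₁ M b3
  obtain ⟨N, hN⟩ : ∃ N : ℕ, N = K * M := ⟨_, rfl⟩
  have hMN : M ≤ N := by rw [hN]; exact Nat.le_mul_of_pos_left _ hK1
  obtain ⟨⟨_, g2⟩, g3⟩ := hM₁ N (b3.trans hMN)
  have hMR : (3 : ℝ) ≤ M := by exact_mod_cast b4
  have hM0 : (0 : ℝ) < M := by linarith
  have hMNR : (M : ℝ) ≤ N := by exact_mod_cast hMN
  have hN0 : (0 : ℝ) < N := by linarith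
  have hN1 : (1 : ℝ) ≤ N := by linarith
  have hM1 : (1 : ℝ) ≤ M := by linarith
  have hNK : (N : ℝ) = K * M := by rw [hN]; push_cast; ring
  have hAN : A ⊆ Icc 1 N := hA.trans (Icc_subset_Icc_right hMN)
  have hhN : |h| ≤ (N : ℤ) := hh.trans (by exact_mod_cast hMN)
  have hAc' : (N : ℝ) ^ (1 - 0.0000013 : ℝ) ≤ A.card := by
    refine le_trans ?_ hAc
    rw [hNK, Real.mul_rpow (by positivity) hM0.le]
    calc (K : ℝ) ^ (1 - 0.0000013 : ℝ) * (M : ℝ) ^ (1 - 0.0000013 : ℝ) ≤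
        (K : ℝ) ^ (1 : ℝ) * (M : ℝ) ^ (1 - 0.0000013 : ℝ) := by
          apply mul_le_mul_of_nonneg_right _ (by positivity)
          exact Real.rpow_le_rpow_of_exponent_le hKR (by norm_num)
      _ ≤ (M : ℝ) ^ (0.0000001 : ℝ) * (M : ℝ) ^ (1 - 0.0000013 : ℝ) := by
          apply mul_le_mul_of_nonneg_right _ (by positivity)
          rw [Real.rpow_one]
          exact g1
      _ = _ := by
          rw [← Real.rpow_add hM0]
          norm_num
  obtain ⟨z, hz⟩ : ∃ z : ℕ, z = ⌊(N : ℝ) ^ (0.0015 / 900 : ℝ)⌋₊ := ⟨_, rfl⟩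
  have hz2 : 2 ≤ z := by
    rw [hz]
    apply Nat.le_floor
    push_cast
    linarith
  have hzle : (z : ℝ) ≤ (M : ℝ) ^ (0.000002 : ℝ) := by
    have h1 : (z : ℝ) ≤ (N : ℝ) ^ (0.0015 / 900 : ℝ) := by rw [hz]; exact Nat.floor_le (by positivity)
    refine h1.trans ?_
    rw [hNK, Real.mul_rpow (by positivity) hM0.le]
    calc (K : ℝ) ^ (0.0015 / 900 : ℝ) * (M : ℝ) ^ (0.0015 / 900 : ℝ) ≤
        (K : ℝ) ^ (1 : ℝ) * (M : ℝ) ^ (0.0015 / 900 : ℝ) := by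
          apply mul_le_mul_of_nonneg_right _ (by positivity)
          exact Real.rpow_le_rpow_of_exponent_le hKR (by norm_num)
      _ ≤ (M : ℝ) ^ (0.0000001 : ℝ) * (M : ℝ) ^ (0.0015 / 900 : ℝ) := by
          apply mul_le_mul_of_nonneg_right _ (by positivity)
          rw [Real.rpow_one]
          exact g1
      _ = (M : ℝ) ^ (0.0000001 + 0.0015 / 900 : ℝ) := by rw [← Real.rpow_add hM0]
      _ ≤ _ := Real.rpow_le_rpow_of_exponent_le hM1 (by norm_num)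
  have hfz : ∀ p : ℕ, p.Prime → p ≤ z → ¬ (p : ℤ) ∣ qf a b c h := by
    intro p hp hpz
    apply hfree p hp
    have : (p : ℝ) ≤ z := by exact_mod_cast hpz
    linarith
  obtain ⟨hdens, hrho4⟩ := hN₃ N (b5.trans hMN) h
  rw [← hz] at hdens hrho4
  have hg := hN₁ N (b1.trans hMN) z hz (TQ a b c h) (SQ a b c h) (TQ_per a b c h) (SQ_per a b c h)
    (TQ_even a b c h) (fun p hp hpz => TQ_zero a b c h p hp (hfz p hp hpz))
    (fun p hp hpz => rho_TQ a b c h p hp (hfz p hp hpz)) hrho4 hdens A hAN hAc'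
  have hs := hN₂ N (b2.trans hMN) h hhN A hAN
  set Q := QT (SQ a b c h) z ((N : ℝ) ^ (10 / 11 : ℝ)) with hQ
  set R := RQ Q (Real.log N / 10) with hR
  set G1 := (A ×ˢ A).filter (fun x : ℕ × ℕ => x.1 ≠ x.2 ∧
    Good (TQ a b c h) (SQ a b c h) Q R (cw4 N) z ((x.2 : ℤ) - x.1)) with hG1
  set B1 := (A ×ˢ A).filter (fun x : ℕ × ℕ => x.1 ≠ x.2 ∧ ∃ p : ℕ, p.Prime ∧ (N : ℝ) ^ (0.1 : ℝ) < p ∧
        (p : ℝ) ≤ (N : ℝ) ^ (0.99 : ℝ) ∧
        (p : ℤ) ^ 2 ∣ a * (h + ((x.2 : ℤ) - x.1)) ^ 2 + b * (h + ((x.2 : ℤ) - x.1)) + c) with hB1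
  have hnlt : ∀ x ∈ A ×ˢ A, |(x.2 : ℤ) - x.1| < M := by
    intro x hx
    obtain ⟨h1, h2⟩ := mem_product.1 hx
    have h3 := mem_Icc.1 (hA h1)
    have h4 := mem_Icc.1 (hA h2)
    rw [abs_lt]
    omega
  -- the bad part
  have hbad : ∑ x ∈ B1, om ((x.2 : ℤ) - x.1) ≤ c₁ / 2 * (A.card : ℝ) ^ 2 := by
    have h1 : ∀ x ∈ B1, om ((x.2 : ℤ) - x.1) ≤ C * (N : ℝ) ^ (0.001 : ℝ) := by
      intro x hx
      obtain ⟨hx1, hx2, _⟩ := mem_filter.1 hx
      have h3 := hnlt x hx1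
      refine (hC _ (by omega)).trans ?_
      apply mul_le_mul_of_nonneg_left _ (by linarith)
      apply Real.rpow_le_rpow (by positivity) _ (by norm_num)
      have h4 : |(x.2 : ℤ) - x.1| ≤ (N : ℤ) := by
        have : (M : ℤ) ≤ N := by exact_mod_cast hMN
        omega
      exact_mod_cast h4
    have h2 := sum_le_card_nsmul B1 _ _ h1
    rw [nsmul_eq_mul] at h2
    have h3 : (B1.card : ℝ) ≤ A.card * (N : ℝ) ^ (0.996 : ℝ) := by
      convert hs using 3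
    have h4 : (N : ℝ) ^ (0.9995 : ℝ) ≤ A.card :=
      (Real.rpow_le_rpow_of_exponent_le hN1 (by norm_num)).trans hAc'
    have h5 : 2 * C / c₁ * ((N : ℝ) ^ (0.996 : ℝ) * (N : ℝ) ^ (0.001 : ℝ)) ≤ A.card := by
      refine le_trans ?_ h4
      calc 2 * C / c₁ * ((N : ℝ) ^ (0.996 : ℝ) * (N : ℝ) ^ (0.001 : ℝ)) ≤
          (N : ℝ) ^ (0.0025 : ℝ) * ((N : ℝ) ^ (0.996 : ℝ) * (N : ℝ) ^ (0.001 : ℝ)) :=
            mul_le_mul_of_nonneg_right g2 (by positivity)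
        _ = _ := by
            rw [← Real.rpow_add hN0, ← Real.rpow_add hN0]
            norm_num
    have h6 : C * ((N : ℝ) ^ (0.996 : ℝ) * (N : ℝ) ^ (0.001 : ℝ)) ≤ c₁ / 2 * A.card := by
      have h7 : C * ((N : ℝ) ^ (0.996 : ℝ) * (N : ℝ) ^ (0.001 : ℝ)) =
          c₁ / 2 * (2 * C / c₁ * ((N : ℝ) ^ (0.996 : ℝ) * (N : ℝ) ^ (0.001 : ℝ))) := by
        field_simp
      rw [h7]
      exact mul_le_mul_of_nonneg_left h5 (by positivity)
    calc ∑ x ∈ B1, om ((x.2 : ℤ) - x.1) ≤ B1.card * (C * (N : ℝ) ^ (0.001 : ℝ)) := h2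
      _ ≤ (A.card * (N : ℝ) ^ (0.996 : ℝ)) * (C * (N : ℝ) ^ (0.001 : ℝ)) :=
          mul_le_mul_of_nonneg_right h3 (by positivity)
      _ = A.card * (C * ((N : ℝ) ^ (0.996 : ℝ) * (N : ℝ) ^ (0.001 : ℝ))) := by ring
      _ ≤ A.card * (c₁ / 2 * A.card) := mul_le_mul_of_nonneg_left h6 (Nat.cast_nonneg _)
      _ = _ := by ring
  -- the good part
  have hsub : G1 ⊆ ((A ×ˢ A).filter (fun x : ℕ × ℕ => x.1 ≠ x.2 ∧
        AP ((M : ℝ) ^ (0.1 : ℝ)) 3 (qf a b c (h + ((x.2 : ℤ) - x.1))))) ∪ B1 := by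
    intro x hx
    by_cases hxB : x ∈ B1
    · exact mem_union_right _ hxB
    · apply mem_union_left
      obtain ⟨hx1, hx2, hx3⟩ := mem_filter.1 hx
      have hnM := hnlt x hx1
      have hap := good_AP a b c h N (by omega) z hz2 ((x.2 : ℤ) - x.1) (by
        obtain ⟨n, hn⟩ : ∃ n : ℤ, n = h + ((x.2 : ℤ) - x.1) := ⟨_, rfl⟩
        rw [← hn]
        have hnabs : n.natAbs ≤ 2 * M := by
          have h3 := abs_le.1 hh
          have h4 := abs_lt.1 hnM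
          omega
        have h1 : (qf a b c n).natAbs ≤ N ^ 2 := by
          have h2 : (qf a b c n).natAbs ≤ a.natAbs * n.natAbs ^ 2 + b.natAbs * n.natAbs + c.natAbs := by
            unfold qf
            refine (Int.natAbs_add_le _ _).trans ?_
            apply Nat.add_le_add_right
            refine (Int.natAbs_add_le _ _).trans ?_
            rw [Int.natAbs_mul, Int.natAbs_mul, Int.natAbs_pow]
          have hM1' : 1 ≤ M := by omega
          have e1 : a.natAbs * n.natAbs ^ 2 ≤ a.natAbs * (2 * M) ^ 2 :=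
            Nat.mul_le_mul_left _ (Nat.pow_le_pow_left hnabs 2)
          have e2 : b.natAbs * n.natAbs ≤ b.natAbs * (2 * M) := Nat.mul_le_mul_left _ hnabs
          have e3 : M ≤ M ^ 2 := Nat.le_self_pow two_ne_zero M
          have e4 : b.natAbs * (2 * M) ≤ 2 * b.natAbs * M ^ 2 := by
            calc b.natAbs * (2 * M) = 2 * b.natAbs * M := by ring
              _ ≤ _ := Nat.mul_le_mul_left _ e3
          have e5 : c.natAbs ≤ c.natAbs * M ^ 2 := Nat.le_mul_of_pos_right _ (by positivity)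
          have e6 : (qf a b c n).natAbs ≤ K * M ^ 2 := by
            calc (qf a b c n).natAbs ≤ a.natAbs * (2 * M) ^ 2 + 2 * b.natAbs * M ^ 2 + c.natAbs * M ^ 2 := by
                  omega
              _ ≤ (4 * a.natAbs + 2 * b.natAbs + c.natAbs + 1) * M ^ 2 := by
                  have : (4 * a.natAbs + 2 * b.natAbs + c.natAbs + 1) * M ^ 2 =
                    a.natAbs * (2 * M) ^ 2 + 2 * b.natAbs * M ^ 2 + c.natAbs * M ^ 2 + M ^ 2 := by ring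
                  omega
              _ = _ := by rw [hK]
          refine e6.trans ?_
          rw [hN, mul_pow]
          apply Nat.mul_le_mul_right
          nlinarith
        exact_mod_cast h1) hx3 (by
        intro p hp h1 h2 h3
        exact hxB (mem_filter.2 ⟨hx1, hx2, p, hp, h1, h2, h3⟩))
      refine mem_filter.2 ⟨hx1, hx2, ?_, hap.2⟩
      intro p hp hd
      exact lt_of_le_of_lt (Real.rpow_le_rpow hM0.le hMNR (by norm_num)) (hap.1 p hp hd)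
  have hsum : ∑ x ∈ G1, om ((x.2 : ℤ) - x.1) ≤ ∑ x ∈ (A ×ˢ A).filter (fun x : ℕ × ℕ => x.1 ≠ x.2 ∧
        AP ((M : ℝ) ^ (0.1 : ℝ)) 3 (qf a b c (h + ((x.2 : ℤ) - x.1)))), om ((x.2 : ℤ) - x.1) +
        ∑ x ∈ B1, om ((x.2 : ℤ) - x.1) := by
    refine (sum_le_sum_of_subset_of_nonneg hsub fun x _ _ => (om_pos _).le).trans ?_
    have := sum_union_inter (s₁ := (A ×ˢ A).filter (fun x : ℕ × ℕ => x.1 ≠ x.2 ∧
        AP ((M : ℝ) ^ (0.1 : ℝ)) 3 (qf a b c (h + ((x.2 : ℤ) - x.1))))) (s₂ := B1)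
        (f := fun x : ℕ × ℕ => om ((x.2 : ℤ) - x.1))
    rw [← this]
    have h0 : 0 ≤ ∑ x ∈ (A ×ˢ A).filter (fun x : ℕ × ℕ => x.1 ≠ x.2 ∧
        AP ((M : ℝ) ^ (0.1 : ℝ)) 3 (qf a b c (h + ((x.2 : ℤ) - x.1)))) ∩ B1, om ((x.2 : ℤ) - x.1) :=
      sum_nonneg fun x _ => (om_pos _).le
    linarith
  have h9 : c₁ * (A.card : ℝ) ^ 2 = c₁ / 2 * (A.card : ℝ) ^ 2 + c₁ / 2 * (A.card : ℝ) ^ 2 := by ring
  rw [h9] at hg
  linarith

open Classical in
/-- **Three prime factors, all quadratic polynomials and all shifts.** -/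
theorem quad_shift (a b c : ℤ) (hD : ¬ IsSquare (b ^ 2 - 4 * a * c)) (ε : ℝ) (hε : 0 < ε) :
    ∃ N₀ : ℕ, ∀ N : ℕ, N₀ ≤ N → ∀ h : ℤ, |h| ≤ N →
      (∀ p : ℕ, p.Prime → (p : ℝ) ≤ (N : ℝ) ^ (1 / 500000 : ℝ) → ¬ (p : ℤ) ∣ a * h ^ 2 + b * h + c) →
      ∀ (u : ℕ) (A : Finset ℕ), A ⊆ Ioc u (u + N) → (N : ℝ) ^ (1 - 1 / 1000000 : ℝ) ≤ A.card →
      (A.card : ℝ) ^ 2 * (N : ℝ) ^ (-ε) ≤ ((A ×ˢ A).filter (fun x : ℕ × ℕ => x.1 ≠ x.2 ∧
        AP ((N : ℝ) ^ (1 / 10 : ℝ)) 3 (a * (h + ((x.2 : ℤ) - x.1)) ^ 2 + b * (h + ((x.2 : ℤ) - x.1)) + c))).card := by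
  obtain ⟨c₀, hc₀, H⟩ := power_wS_aux
  obtain ⟨N₀, hN₀⟩ := H a b c hD
  obtain ⟨C, hC1, hC⟩ := om_le (ε / 2) (by positivity)
  obtain ⟨N₁, hN₁⟩ := Filter.eventually_atTop.1
    (((tendsto_rpow_atTop (show (0 : ℝ) < ε / 2 by positivity)).comp
      tendsto_natCast_atTop_atTop).eventually_ge_atTop (C / c₀))
  refine ⟨max (max N₀ N₁) 1, fun N hN h hh hfree u A hA hAc => ?_⟩
  have hNN0 : N₀ ≤ N := (le_max_left _ _).trans ((le_max_left _ _).trans hN)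
  have hNN1 : N₁ ≤ N := (le_max_right _ _).trans ((le_max_left _ _).trans hN)
  have hN1 : 1 ≤ N := (le_max_right _ _).trans hN
  have hN0 : (0 : ℝ) < N := by exact_mod_cast hN1
  have hN1R : (1 : ℝ) ≤ N := by exact_mod_cast hN1
  have g1 : C / c₀ ≤ (N : ℝ) ^ (ε / 2) := hN₁ N hNN1
  have hinj : Set.InjOn (fun a : ℕ => a - u) A := by
    intro a ha b hb h
    have h1 := (mem_Ioc.1 (hA ha)).1
    have h2 := (mem_Ioc.1 (hA hb)).1
    simp only at h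
    omega
  have hcard : (A.image (fun a => a - u)).card = A.card := card_image_of_injOn hinj
  set A' := A.image (fun a => a - u) with hA'
  have hA'I : A' ⊆ Icc 1 N := by
    intro x hx
    obtain ⟨a, ha, rfl⟩ := mem_image.1 hx
    have := mem_Ioc.1 (hA ha)
    rw [mem_Icc]
    omega
  have h1 := hN₀ N hNN0 h hh (by
    intro p hp hple
    have e : qf a b c h = a * h ^ 2 + b * h + c := rfl
    rw [e]
    apply hfree p hp
    norm_num at hple ⊢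
    exact hple) A' hA'I (by
    rw [hcard]
    exact (Real.rpow_le_rpow_of_exponent_le hN1R (by norm_num)).trans hAc)
  rw [hcard] at h1
  set S := (A' ×ˢ A').filter (fun x : ℕ × ℕ => x.1 ≠ x.2 ∧
    AP ((N : ℝ) ^ (0.1 : ℝ)) 3 (qf a b c (h + ((x.2 : ℤ) - x.1)))) with hS
  have h2 : ∀ x ∈ S, om ((x.2 : ℤ) - x.1) ≤ C * (N : ℝ) ^ (ε / 2) := by
    intro x hx
    obtain ⟨hx1, hx2, _⟩ := mem_filter.1 hx
    obtain ⟨ha, hb⟩ := mem_product.1 hx1
    have ha' := mem_Icc.1 (hA'I ha)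
    have hb' := mem_Icc.1 (hA'I hb)
    refine (hC _ (by omega)).trans ?_
    apply mul_le_mul_of_nonneg_left _ (by linarith)
    apply Real.rpow_le_rpow (by positivity) _ (by positivity)
    have h4 : |(x.2 : ℤ) - x.1| ≤ (N : ℤ) := by
      rw [abs_le]
      omega
    exact_mod_cast h4
  have h5 := sum_le_card_nsmul S _ _ h2
  rw [nsmul_eq_mul] at h5
  have h6 : c₀ * (A.card : ℝ) ^ 2 ≤ S.card * (C * (N : ℝ) ^ (ε / 2)) := h1.trans h5
  have h7 : C ≤ c₀ * (N : ℝ) ^ (ε / 2) := by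
    rw [div_le_iff₀ hc₀] at g1
    linarith
  have h8 : c₀ * (A.card : ℝ) ^ 2 ≤ c₀ * (S.card * ((N : ℝ) ^ (ε / 2) * (N : ℝ) ^ (ε / 2))) := by
    calc c₀ * (A.card : ℝ) ^ 2 ≤ S.card * (C * (N : ℝ) ^ (ε / 2)) := h6
      _ ≤ S.card * ((c₀ * (N : ℝ) ^ (ε / 2)) * (N : ℝ) ^ (ε / 2)) := by
          apply mul_le_mul_of_nonneg_left _ (Nat.cast_nonneg _)
          exact mul_le_mul_of_nonneg_right h7 (by positivity)
      _ = _ := by ring
  have h9 := le_of_mul_le_mul_left h8 hc₀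
  rw [← Real.rpow_add hN0, add_halves] at h9
  have h10 : (A.card : ℝ) ^ 2 * (N : ℝ) ^ (-ε) ≤ S.card := by
    rw [Real.rpow_neg hN0.le, ← div_eq_mul_inv, div_le_iff₀ (by positivity)]
    exact h9
  refine h10.trans ?_
  apply Nat.cast_le.2
  apply card_le_card_of_injOn (fun x : ℕ × ℕ => (x.1 + u, x.2 + u))
  · rintro ⟨x, y⟩ hx
    rw [mem_coe, hS, mem_filter, mem_product] at hx
    obtain ⟨⟨h1, h2⟩, h3, h4⟩ := hx
    simp only at h1 h2 h3 h4
    have hsh : ∀ c : ℕ, c ∈ A' → c + u ∈ A := by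
      intro c hc
      obtain ⟨a', ha', rfl⟩ := mem_image.1 hc
      have := (mem_Ioc.1 (hA ha')).1
      have e : a' - u + u = a' := by omega
      rw [e]
      exact ha'
    rw [mem_coe, mem_filter, mem_product]
    simp only
    have e : (((y + u : ℕ) : ℤ) - ((x + u : ℕ) : ℤ)) = (y : ℤ) - x := by
      push_cast
      ring
    rw [e]
    refine ⟨⟨hsh x h1, hsh y h2⟩, by omega, ?_⟩
    unfold qf at h4
    norm_num at h4 ⊢
    exact h4
  · rintro ⟨x, y⟩ _ ⟨x', y'⟩ _ h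
    simp only [Prod.mk.injEq] at h
    rw [Prod.mk.injEq]
    omega

end Pool.Agent.H16.P5
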