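import Pool.Agent.H16.P5.Three
import Pool.Agent.H16.P4.Quad

/-!
# The conditions for an arbitrary quadratic polynomial and an arbitrary shift
-/

set_option autoImplicit false

namespace Pool.Agent.H16.P5

open Finset
open Pool.Agent.H16.P3 (gen ind miss Dens RQ IQ)
open Pool.Agent.W23.DC (Mer)
open Pool.Agent.Y882.SI (QF mer_quad ro_quad_le)
open Pool.Agent.Y882.PX (ro)
open Pool.Agent.H16.P4 (dvd_iff_of_sub cnt_eq ro_card sqk_per)

/-- the quadratic polynomial -/
def qf (a b c n : ℤ) : ℤ := a * n ^ 2 + b * n + c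

/-- the condition at the large primes -/
def SQ (a b c h : ℤ) (p : ℕ) (n : ℤ) : Prop := (p : ℤ) ∣ qf a b c (h + n)

/-- the condition at the small primes -/
def TQ (a b c h : ℤ) (p : ℕ) (n : ℤ) : Prop := (p : ℤ) ∣ qf a b c (h + n) * qf a b c (h - n)

lemma qf_sub (a b c n m : ℤ) : n - m ∣ qf a b c n - qf a b c m := by
  have e : qf a b c n - qf a b c m = (n - m) * (a * (n + m) + b) := by
    unfold qf
    ring
  rw [e]
  exact dvd_mul_right _ _

lemma SQ_per (a b c h : ℤ) (p : ℕ) (n m : ℤ) (hnm : (p : ℤ) ∣ n - m) : SQ a b c h p n ↔ SQ a b c h p m := by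
  unfold SQ
  apply dvd_iff_of_sub
  refine dvd_trans ?_ (qf_sub a b c (h + n) (h + m))
  have e : h + n - (h + m) = n - m := by ring
  rwa [e]

lemma TQ_per (a b c h : ℤ) (p : ℕ) (n m : ℤ) (hnm : (p : ℤ) ∣ n - m) : TQ a b c h p n ↔ TQ a b c h p m := by
  unfold TQ
  apply dvd_iff_of_sub
  have h1 : (p : ℤ) ∣ qf a b c (h + n) - qf a b c (h + m) := by
    refine dvd_trans ?_ (qf_sub a b c (h + n) (h + m))
    have e : h + n - (h + m) = n - m := by ring
    rwa [e]
  have h2 : (p : ℤ) ∣ qf a b c (h - n) - qf a b c (h - m) := by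
    refine dvd_trans ?_ (qf_sub a b c (h - n) (h - m))
    have e : h - n - (h - m) = -(n - m) := by ring
    rw [e]
    exact hnm.neg_right
  have e : qf a b c (h + n) * qf a b c (h - n) - qf a b c (h + m) * qf a b c (h - m) =
      (qf a b c (h + n) - qf a b c (h + m)) * qf a b c (h - n) +
      qf a b c (h + m) * (qf a b c (h - n) - qf a b c (h - m)) := by ring
  rw [e]
  exact dvd_add (h1.mul_right _) (h2.mul_left _)

lemma TQ_even (a b c h : ℤ) (p : ℕ) (n : ℤ) : TQ a b c h p n ↔ TQ a b c h p (-n) := by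
  unfold TQ
  rw [mul_comm, sub_neg_eq_add]
  rfl

lemma TQ_zero (a b c h : ℤ) (p : ℕ) (hp : p.Prime) (hh : ¬ (p : ℤ) ∣ qf a b c h) : ¬ TQ a b c h p 0 := by
  unfold TQ
  rw [add_zero, sub_zero]
  intro h1
  rcases (Nat.prime_iff_prime_int.1 hp).dvd_or_dvd h1 with h2 | h2
  · exact hh h2
  · exact hh h2

open Classical in
/-- at most two roots -/
lemma two_roots (A B C : ℤ) (p : ℕ) (hp : p.Prime) (h : ¬ ((p : ℤ) ∣ A ∧ (p : ℤ) ∣ B ∧ (p : ℤ) ∣ C)) :
    ((range p).filter (fun r : ℕ => (p : ℤ) ∣ A * (r : ℤ) ^ 2 + B * r + C)).card ≤ 2 := by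
  have hpZ : Prime (p : ℤ) := Nat.prime_iff_prime_int.1 hp
  by_contra hc
  push Not at hc
  obtain ⟨r, hr, s, hs, t, ht, hrs, hrt, hst⟩ := Finset.two_lt_card.1 hc
  obtain ⟨hr1, hr2⟩ := mem_filter.1 hr
  obtain ⟨hs1, hs2⟩ := mem_filter.1 hs
  obtain ⟨ht1, ht2⟩ := mem_filter.1 ht
  rw [mem_range] at hr1 hs1 ht1
  have hne : ∀ x y : ℕ, x < p → y < p → x ≠ y → ¬ (p : ℤ) ∣ (x : ℤ) - y := by
    intro x y hx hy hxy hd
    have := Int.eq_zero_of_abs_lt_dvd hd (by rw [abs_lt]; constructor <;> omega)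
    omega
  have hstep : ∀ x y : ℕ, (p : ℤ) ∣ A * (x : ℤ) ^ 2 + B * x + C → (p : ℤ) ∣ A * (y : ℤ) ^ 2 + B * y + C →
      ¬ (p : ℤ) ∣ (x : ℤ) - y → (p : ℤ) ∣ A * (x + y) + B := by
    intro x y hx hy hxy
    have h1 := dvd_sub hx hy
    have e : A * (x : ℤ) ^ 2 + B * x + C - (A * (y : ℤ) ^ 2 + B * y + C) = ((x : ℤ) - y) * (A * (x + y) + B) := by ring
    rw [e] at h1
    exact (hpZ.dvd_or_dvd h1).resolve_left hxy
  have k1 := hstep r s hr2 hs2 (hne r s hr1 hs1 hrs)
  have k2 := hstep r t hr2 ht2 (hne r t hr1 ht1 hrt)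
  have k3 : (p : ℤ) ∣ A * ((s : ℤ) - t) := by
    have := dvd_sub k1 k2
    have e : A * ((r : ℤ) + s) + B - (A * (r + t) + B) = A * ((s : ℤ) - t) := by ring
    rwa [e] at this
  have k4 : (p : ℤ) ∣ A := (hpZ.dvd_or_dvd k3).resolve_right (hne s t hs1 ht1 hst)
  have k5 : (p : ℤ) ∣ B := (dvd_add_right (k4.mul_right _)).1 k1
  have k6 : (p : ℤ) ∣ C := by
    have : (p : ℤ) ∣ A * (r : ℤ) ^ 2 + B * r := dvd_add (k4.mul_right _) (k5.mul_right _)
    exact (dvd_add_right this).1 hr2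
  exact h ⟨k4, k5, k6⟩

open Classical in
lemma rho_TQ (a b c h : ℤ) (p : ℕ) (hp : p.Prime) (hh : ¬ (p : ℤ) ∣ qf a b c h) : rhoT (TQ a b c h) p ≤ 4 := by
  have hpZ : Prime (p : ℤ) := Nat.prime_iff_prime_int.1 hp
  have h1 := two_roots a (2 * a * h + b) (qf a b c h) p hp (fun h => hh h.2.2)
  have h2 := two_roots a (-(2 * a * h + b)) (qf a b c h) p hp (fun h => hh h.2.2)
  unfold rhoT
  have hsub : (range p).filter (fun r : ℕ => TQ a b c h p r) ⊆
      (range p).filter (fun r : ℕ => (p : ℤ) ∣ a * (r : ℤ) ^ 2 + (2 * a * h + b) * r + qf a b c h) ∪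
      (range p).filter (fun r : ℕ => (p : ℤ) ∣ a * (r : ℤ) ^ 2 + (-(2 * a * h + b)) * r + qf a b c h) := by
    intro r hr
    obtain ⟨hr1, hr2⟩ := mem_filter.1 hr
    unfold TQ at hr2
    rw [mem_union, mem_filter, mem_filter]
    rcases hpZ.dvd_or_dvd hr2 with h3 | h3
    · left
      refine ⟨hr1, ?_⟩
      have e : a * (r : ℤ) ^ 2 + (2 * a * h + b) * r + qf a b c h = qf a b c (h + r) := by unfold qf; ring
      rwa [e]
    · right
      refine ⟨hr1, ?_⟩
      have e : a * (r : ℤ) ^ 2 + (-(2 * a * h + b)) * r + qf a b c h = qf a b c (h - r) := by unfold qf; ring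
      rwa [e]
  have h3 := (card_le_card hsub).trans (card_union_le _ _)
  omega

open Classical in
lemma rho_SQ (a b c h : ℤ) (p : ℕ) (hp : p.Prime) (ha : ¬ (p : ℤ) ∣ a) : rhoT (SQ a b c h) p ≤ 2 := by
  have h1 := two_roots a (2 * a * h + b) (qf a b c h) p hp (fun h => ha h.1)
  unfold rhoT
  refine le_trans (le_of_eq ?_) h1
  congr 1
  ext r
  rw [mem_filter, mem_filter]
  apply and_congr_right
  intro _
  unfold SQ
  have e : a * (r : ℤ) ^ 2 + (2 * a * h + b) * r + qf a b c h = qf a b c (h + r) := by unfold qf; ring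
  rw [e]

open Classical in
lemma rho_ro (a b c h : ℤ) (p : ℕ) (hp : p.Prime) (ha : ¬ (p : ℤ) ∣ 2 * a) :
    rhoT (SQ a b c h) p = ro (QF (-(b ^ 2 - 4 * a * c))) 0 p := by
  have hpZ : Prime (p : ℤ) := Nat.prime_iff_prime_int.1 hp
  rw [ro_card]
  rw [← cnt_eq p hp (2 * a * h + b) (2 * a) ha (fun n => (p : ℤ) ∣ n ^ 2 + (-(b ^ 2 - 4 * a * c)))
    (sqk_per _ p)]
  unfold rhoT
  congr 1
  ext r
  rw [mem_filter, mem_filter]
  apply and_congr_right
  intro _
  unfold SQ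
  have h4 : ¬ (p : ℤ) ∣ 4 * a := by
    intro h1
    have h2 : (p : ℤ) ∣ 2 * (2 * a) := by
      have e : 4 * a = 2 * (2 * a) := by ring
      rwa [e] at h1
    rcases hpZ.dvd_or_dvd h2 with h3 | h3
    · exact ha (h3.mul_right _)
    · exact ha h3
  have e : (2 * a * h + b + 2 * a * (r : ℤ)) ^ 2 + (-(b ^ 2 - 4 * a * c)) = 4 * a * qf a b c (h + r) := by
    unfold qf
    ring
  rw [e]
  constructor
  · intro h5
    exact h5.mul_left _
  · intro h5
    rcases hpZ.dvd_or_dvd h5 with h6 | h6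
    · exact absurd h6 h4
    · exact h6

open Classical in
/-- the densities are regular -/
theorem densS (a b c : ℤ) (hD : ¬ IsSquare (b ^ 2 - 4 * a * c)) (η : ℝ) (hη : 0 < η) (hη1 : η ≤ 0.001) :
    ∃ N₁ : ℕ, ∀ N : ℕ, N₁ ≤ N → ∀ h : ℤ, Dens (QT (SQ a b c h) ⌊(N : ℝ) ^ η⌋₊ ((N : ℝ) ^ (10 / 11 : ℝ)))
      (fun p => (rhoT (SQ a b c h) p : ℝ) / p) ∧
      ∀ p ∈ QT (SQ a b c h) ⌊(N : ℝ) ^ η⌋₊ ((N : ℝ) ^ (10 / 11 : ℝ)), rhoT (SQ a b c h) p ≤ 4 := by
  obtain ⟨N₁, hN₁⟩ := mer_quad (-(b ^ 2 - 4 * a * c)) (by rw [neg_neg]; exact hD) η 1 0.000001 hη le_rfl (by norm_num)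
  have ha0 : a ≠ 0 := by
    rintro rfl
    apply hD
    exact ⟨b, by ring⟩
  have ev : ∀ᶠ N : ℕ in Filter.atTop, max 1000000 (((2 * a).natAbs : ℕ) : ℝ) ≤ (N : ℝ) ^ η :=
    ((tendsto_rpow_atTop hη).comp tendsto_natCast_atTop_atTop).eventually_ge_atTop _
  obtain ⟨N₂, hN₂⟩ := Filter.eventually_atTop.1 ev
  refine ⟨max (max N₁ N₂) 3, fun N hN h => ?_⟩
  have hmer := hN₁ N ((le_max_left _ _).trans ((le_max_left _ _).trans hN))
  have hbig := hN₂ N ((le_max_right _ _).trans ((le_max_left _ _).trans hN))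
  have hN3 : 3 ≤ N := (le_max_right _ _).trans hN
  have hNR : (3 : ℝ) ≤ N := by exact_mod_cast hN3
  have hN0 : (0 : ℝ) < N := by linarith
  have hN1 : (1 : ℝ) ≤ N := by linarith
  have hb1 : (1000000 : ℝ) ≤ (N : ℝ) ^ η := (le_max_left _ _).trans hbig
  have hb2 : (((2 * a).natAbs : ℕ) : ℝ) ≤ (N : ℝ) ^ η := (le_max_right _ _).trans hbig
  obtain ⟨L, hL⟩ : ∃ L : ℝ, L = Real.log N := ⟨_, rfl⟩
  have hL0 : 0 < L := by
    rw [hL]
    exact Real.log_pos (by linarith)
  set Q := QT (SQ a b c h) ⌊(N : ℝ) ^ η⌋₊ ((N : ℝ) ^ (10 / 11 : ℝ)) with hQ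
  have hmem : ∀ p ∈ Q, p.Prime ∧ (N : ℝ) ^ η < p ∧ (p : ℝ) ≤ (N : ℝ) ^ (10 / 11 : ℝ) := by
    intro p hp
    obtain ⟨h1, h2, h3, _⟩ := mem_filter.1 hp
    refine ⟨h2, ?_, (Nat.le_floor_iff (by positivity)).1 (mem_Icc.1 h1).2⟩
    exact (Nat.floor_lt (by positivity)).1 h3
  have h2a : ∀ p ∈ Q, ¬ (p : ℤ) ∣ 2 * a := by
    intro p hp hd
    obtain ⟨_, h2, _⟩ := hmem p hp
    have h3 := Nat.le_of_dvd (Int.natAbs_pos.2 (mul_ne_zero two_ne_zero ha0)) (Int.natCast_dvd.1 hd)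
    have h4 : (p : ℝ) ≤ (((2 * a).natAbs : ℕ) : ℝ) := by exact_mod_cast h3
    linarith
  have hrho : ∀ p ∈ Q, rhoT (SQ a b c h) p = ro (QF (-(b ^ 2 - 4 * a * c))) 0 p := by
    intro p hp
    exact rho_ro a b c h p (hmem p hp).1 (h2a p hp)
  have hrho2 : ∀ p ∈ Q, rhoT (SQ a b c h) p ≤ 2 := by
    intro p hp
    exact rho_SQ a b c h p (hmem p hp).1 (fun hd => h2a p hp (hd.mul_left 2))
  have hlog : ∀ p ∈ Q, η * L < Real.log p ∧ Real.log p ≤ 10 / 11 * L := by
    intro p hp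
    obtain ⟨h1, h2, h3⟩ := hmem p hp
    have hp0 : (0 : ℝ) < p := by exact_mod_cast h1.pos
    constructor
    · have := Real.log_lt_log (by positivity) h2
      rwa [Real.log_rpow hN0, ← hL] at this
    · have := Real.log_le_log hp0 h3
      rwa [Real.log_rpow hN0, ← hL] at this
  refine ⟨⟨fun p hp => (hmem p hp).1.pos, fun p hp => by positivity, ?_, ?_⟩, fun p hp => (hrho2 p hp).trans (by norm_num)⟩
  · intro p hp
    obtain ⟨h1, h2, _⟩ := hmem p hp
    have hp0 : (0 : ℝ) < p := by exact_mod_cast h1.pos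
    have h3 : (rhoT (SQ a b c h) p : ℝ) ≤ 2 := by exact_mod_cast hrho2 p hp
    rw [div_le_iff₀ hp0]
    linarith
  · intro s t hs hst
    have hts : 0 ≤ Real.log (t / s) := Real.log_nonneg (by rw [one_le_div hs]; exact hst)
    rcases (IQ Q s t).eq_empty_or_nonempty with h0 | ⟨p0, hp0⟩
    · rw [h0, sum_empty]
      linarith
    · obtain ⟨hp0Q, hp0s, hp0t⟩ := mem_filter.1 hp0
      obtain ⟨hl1, hl2⟩ := hlog p0 hp0Q
      have ht0 : 0 < t := lt_of_lt_of_le hs hst
      obtain ⟨α, hα⟩ : ∃ α : ℝ, α = max (s / L) η := ⟨_, rfl⟩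
      obtain ⟨β, hβ⟩ : ∃ β : ℝ, β = min (t * 1.000001 / L) 1 := ⟨_, rfl⟩
      have hα1 : η ≤ α := by rw [hα]; exact le_max_right _ _
      have hα2 : s / L ≤ α := by rw [hα]; exact le_max_left _ _
      have hα0 : 0 < α := lt_of_lt_of_le hη hα1
      have hβ1 : β ≤ 1 := by rw [hβ]; exact min_le_right _ _
      have hβ2 : β ≤ t * 1.000001 / L := by rw [hβ]; exact min_le_left _ _
      have hαβ : α ≤ β := by
        have h1 : α ≤ Real.log p0 / L := by
          rw [hα]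
          apply max_le
          · exact div_le_div_of_nonneg_right hp0s.le hL0.le
          · rw [le_div_iff₀ hL0]
            exact hl1.le
        refine h1.trans ?_
        rw [hβ]
        apply le_min
        · apply div_le_div_of_nonneg_right _ hL0.le
          linarith
        · rw [div_le_one hL0]
          linarith
      have h2 := (abs_le.1 (hmer α β hα1 hαβ hβ1)).2
      have h3 : ∑ p ∈ IQ Q s t, (rhoT (SQ a b c h) p : ℝ) / p ≤
          ∑ p ∈ (Pool.Agent.W23.DC.pr N η 1).filter (fun p => α ≤ Pool.Agent.W23.DC.tt N p ∧ Pool.Agent.W23.DC.tt N p < β),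
            (ro (QF (-(b ^ 2 - 4 * a * c))) 0 p : ℝ) / p := by
        rw [sum_congr rfl fun p hp => by rw [hrho p (mem_filter.1 hp).1]]
        apply sum_le_sum_of_subset_of_nonneg
        · intro p hp
          obtain ⟨hpQ, hps, hpt⟩ := mem_filter.1 hp
          obtain ⟨hm1, hm2⟩ := hlog p hpQ
          obtain ⟨h4, h5, h6⟩ := hmem p hpQ
          have htt : Pool.Agent.W23.DC.tt N p = Real.log p / L := by
            unfold Pool.Agent.W23.DC.tt
            rw [hL]
          have hpN : p ≤ N := by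
            have h7 : (p : ℝ) ≤ N := by
              calc (p : ℝ) ≤ (N : ℝ) ^ (10 / 11 : ℝ) := h6
                _ ≤ (N : ℝ) ^ (1 : ℝ) := Real.rpow_le_rpow_of_exponent_le hN1 (by norm_num)
                _ = N := Real.rpow_one _
            exact_mod_cast h7
          have hlt1 : Real.log p / L < 1 := by
            rw [div_lt_one hL0]
            linarith
          rw [mem_filter, htt]
          refine ⟨?_, ?_, ?_⟩
          · unfold Pool.Agent.W23.DC.pr
            rw [mem_filter, mem_Icc, htt]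
            refine ⟨⟨h4.pos, hpN⟩, h4, ?_, hlt1⟩
            rw [le_div_iff₀ hL0]
            exact hm1.le
          · rw [hα]
            apply max_le
            · exact div_le_div_of_nonneg_right hps.le hL0.le
            · rw [le_div_iff₀ hL0]
              exact hm1.le
          · rw [hβ]
            apply lt_min _ hlt1
            apply div_lt_div_of_pos_right _ hL0
            linarith
        · intro p _ _
          positivity
      refine h3.trans ?_
      have h4 : Real.log (β / α) ≤ Real.log (t / s) + 0.000001 := by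
        have h5 : β / α ≤ t / s * 1.000001 := by
          rw [div_le_iff₀ hα0]
          calc β ≤ t * 1.000001 / L := hβ2
            _ = t / s * 1.000001 * (s / L) := by field_simp
            _ ≤ t / s * 1.000001 * α := mul_le_mul_of_nonneg_left hα2 (by positivity)
        have hβ0 : 0 < β := lt_of_lt_of_le hα0 hαβ
        refine (Real.log_le_log (by positivity) h5).trans ?_
        rw [Real.log_mul (by positivity) (by norm_num)]
        have h6 : Real.log (1.000001 : ℝ) ≤ 1.000001 - 1 := Real.log_le_sub_one_of_pos (by norm_num)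
        linarith
      linarith

end Pool.Agent.H16.P5
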