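import Pool.Agent.H16.P5.Gen
import Pool.Agent.H16.P5.TwS

/-!
# The number of good pairs, for an arbitrary condition of dimension one, with explicit exponents
-/

set_option autoImplicit false

namespace Pool.Agent.H16.P5

open Finset
open Pool.Agent.H14.VC
open Pool.Agent.H16.P3 (gen ind miss Dens RQ IQ weights prod_lower log_two_ub)

open Classical in
/-- the number of the residue classes which satisfy the condition -/
noncomputable def rhoT (T : ℕ → ℤ → Prop) (p : ℕ) : ℕ := ((range p).filter (fun r : ℕ => T p r)).card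

open Classical in
/-- the primes between `z` and `Y` at which the condition can be satisfied -/
noncomputable def QT (T : ℕ → ℤ → Prop) (z : ℕ) (Y : ℝ) : Finset ℕ :=
  (Icc 1 ⌊Y⌋₊).filter (fun p => p.Prime ∧ z < p ∧ rhoT T p ≠ 0)

open Classical in
/-- the theorem on twisted pair sums with the notation of this file -/
theorem tw224 (k : ℕ) (hk : 1 ≤ k) : ∃ z₀ : ℕ, 3 ≤ z₀ ∧
    ∀ z : ℕ, z₀ ≤ z → ∀ M D : ℕ, D ≤ z ^ k → z ^ 900 * D ≤ M →
    ∀ T S : ℕ → ℤ → Prop, (∀ p : ℕ, ∀ n m : ℤ, (p : ℤ) ∣ n - m → (T p n ↔ T p m)) →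
      (∀ p : ℕ, ∀ n m : ℤ, (p : ℤ) ∣ n - m → (S p n ↔ S p m)) →
      (∀ p : ℕ, ∀ n : ℤ, T p n ↔ T p (-n)) → (∀ p : ℕ, p.Prime → p ≤ z → ¬ T p 0) →
      (∀ p : ℕ, p.Prime → p ≤ z → rhoT T p ≤ 4) →
    ∀ Q : Finset ℕ, (∀ p ∈ Q, p.Prime ∧ z < p) → (∀ p ∈ Q, rhoT S p ≤ 4) → ∑ p ∈ Q, 1 / (p : ℝ) ≤ k →
    ∀ l1 l2 : Finset ℕ → ℝ, (∀ U ⊆ Q, |l1 U| ≤ k ∧ |l2 U| ≤ k) →
      (∀ U ⊆ Q, D < ∏ p ∈ U, p → l1 U = 0 ∧ l2 U = 0) →
      0 ≤ gen Q l2 (fun p => (rhoT S p : ℝ) / p) →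
      gen Q l2 (fun p => (rhoT S p : ℝ) / p) ≤ (1 - 0.03) * gen Q l1 (fun p => (rhoT S p : ℝ) / p) →
      1 / (k : ℝ) ≤ gen Q l1 (fun p => (rhoT S p : ℝ) / p) →
    ∀ A ⊆ Icc 1 M, 0.03 / (100 * k) * (A.card : ℝ) ^ 2 - M * A.card / (z : ℝ) ^ (4 / 5 : ℝ) ≤
      PS A (fun n => Lam (Pz z) ((224 : ℕ) * Real.log z) (4 : ℕ) T n ^ 2 *
        ((1 - ∑ q ∈ Pz z, (if T q n then (1 : ℝ) else 0)) *
          (∑ U ∈ Q.powerset, l1 U * ∏ p ∈ U, (if S p n then (1 : ℝ) else 0)) -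
          ∑ U ∈ Q.powerset, l2 U * ∏ p ∈ U, (if S p n then (1 : ℝ) else 0))) := by
  obtain ⟨z₀, hz₀, H2⟩ := twistedSh 4 (by norm_num) 0.03 (by norm_num) 0.01 (by norm_num) 224 (by norm_num)
    (by norm_num) k hk
  refine ⟨z₀, hz₀, ?_⟩
  intro z hz M D hD hM T S per perS even zero hrho Q hQ hrhoS hQs l1 l2 hl hsupp h1 h2 h3 A hA
  have hV : ∀ l : Finset ℕ → ℝ, Pool.Agent.H13.P3.Vd S Q l = gen Q l (fun p => (rhoT S p : ℝ) / p) := by
    intro l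
    unfold Pool.Agent.H13.P3.Vd gen
    apply sum_congr rfl
    intro U _
    congr 1
  exact H2 z hz M D hD hM T S per perS even zero
    (fun p hp hpz => by
      have := hrho p hp hpz
      unfold rhoT at this
      convert this using 2) Q hQ
    (fun p hp => by
      have := hrhoS p hp
      unfold rhoT at this
      convert this using 2) hQs l1 l2 hl hsupp (by rw [hV]; exact h1)
    (by rw [hV, hV]; exact h2) (by rw [hV]; exact h3) A hA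

/-- the large coefficients -/
noncomputable def cw4 (N : ℕ) (p : ℕ) : ℝ := 5 / 9 * (1 - 1.1 * Real.log p / Real.log N)

open Classical in
/-- the weighted number of good pairs -/
theorem good_pairs : ∃ c : ℝ, 0 < c ∧ ∀ (κ : ℝ), κ ≤ 0.0000013 → ∃ N₀ : ℕ, ∀ N : ℕ, N₀ ≤ N →
    ∀ (z : ℕ), z = ⌊(N : ℝ) ^ (0.0015 / 900 : ℝ)⌋₊ → ∀ (T S : ℕ → ℤ → Prop)
    (_ : ∀ p : ℕ, ∀ n m : ℤ, (p : ℤ) ∣ n - m → (T p n ↔ T p m))
    (_ : ∀ p : ℕ, ∀ n m : ℤ, (p : ℤ) ∣ n - m → (S p n ↔ S p m))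
    (_ : ∀ p : ℕ, ∀ n : ℤ, T p n ↔ T p (-n)) (_ : ∀ p : ℕ, p.Prime → p ≤ z → ¬ T p 0)
    (_ : ∀ p : ℕ, p.Prime → p ≤ z → rhoT T p ≤ 4)
    (_ : ∀ p ∈ QT S z ((N : ℝ) ^ (10 / 11 : ℝ)), rhoT S p ≤ 4)
    (_ : Dens (QT S z ((N : ℝ) ^ (10 / 11 : ℝ))) (fun p => (rhoT S p : ℝ) / p)),
    ∀ A ⊆ Icc 1 N, (N : ℝ) ^ (1 - κ) ≤ A.card →
      c * (A.card : ℝ) ^ 2 ≤ ∑ x ∈ (A ×ˢ A).filter (fun x : ℕ × ℕ => x.1 ≠ x.2 ∧
          Good T S (QT S z ((N : ℝ) ^ (10 / 11 : ℝ))) (RQ (QT S z ((N : ℝ) ^ (10 / 11 : ℝ))) (Real.log N / 10)) (cw4 N) z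
            ((x.2 : ℤ) - x.1)), om ((x.2 : ℤ) - x.1) := by
  obtain ⟨η, hη⟩ : ∃ η : ℝ, η = 0.0015 / 900 := ⟨_, rfl⟩
  have hη0 : 0 < η := by rw [hη]; norm_num
  have hηs : η * 900 = 0.0015 := by rw [hη]; norm_num
  have hη1 : η ≤ 0.000002 := by rw [hη]; norm_num
  -- the number of blocks
  obtain ⟨m, hm⟩ : ∃ m : ℕ, 2 / η < 8 ^ m := pow_unbounded_of_one_lt _ (by norm_num)
  obtain ⟨k, hk⟩ : ∃ k : ℕ, max (max (2 / η) (3 * m + 1)) (max (Real.exp (2 * (Real.log (1 / η) + 1)))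
      (Real.log (2 / η) + 1)) ≤ k := exists_nat_ge _
  have hk1 : 2 / η ≤ k := ((le_max_left _ _).trans (le_max_left _ _)).trans hk
  have hk2 : (3 * m + 1 : ℝ) ≤ k := ((le_max_right _ _).trans (le_max_left _ _)).trans hk
  have hk3 : Real.exp (2 * (Real.log (1 / η) + 1)) ≤ k := ((le_max_left _ _).trans (le_max_right _ _)).trans hk
  have hk4 : Real.log (2 / η) + 1 ≤ k := ((le_max_right _ _).trans (le_max_right _ _)).trans hk
  have hkR : (1 : ℝ) ≤ k := by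
    have : (0 : ℝ) ≤ m := Nat.cast_nonneg m
    linarith
  have hkn : 1 ≤ k := by exact_mod_cast hkR
  obtain ⟨z₂, hz₂3, hz₂⟩ := tw224 k hkn
  refine ⟨0.03 / (400 * k), by positivity, ?_⟩
  intro κ hκ1
  have hηκ : 0 < 4 / 5 * η - κ := by
    have : (0.0000013 : ℝ) < 4 / 5 * η := by rw [hη]; norm_num
    linarith
  -- large N
  have ten : ∀ t : ℝ, 0 < t → ∀ c : ℝ, ∀ᶠ N : ℕ in Filter.atTop, c ≤ (N : ℝ) ^ t := by
    intro t ht c
    exact ((tendsto_rpow_atTop ht).comp tendsto_natCast_atTop_atTop).eventually_ge_atTop c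
  obtain ⟨N₀, hN₀⟩ := Filter.eventually_atTop.1 ((ten η hη0 ((z₂ : ℝ) + 3)).and
    ((ten (4 / 5 * η - κ) hηκ (800 * k * 100)).and (ten (1 / 4) (by norm_num) (800 * k * 100))))
  refine ⟨max N₀ 3, ?_⟩
  intro N hN z hz T S per perS even zero hrho hrhoS hd A hA hAc
  rw [← hη] at hz
  obtain ⟨g1, g2, g4⟩ := hN₀ N ((le_max_left _ _).trans hN)
  have hN3 : 3 ≤ N := (le_max_right _ _).trans hN
  have hNR : (3 : ℝ) ≤ N := by exact_mod_cast hN3
  have hN0 : (0 : ℝ) < N := by linarith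
  have hN1 : (1 : ℝ) ≤ N := by linarith
  have hzle : (z : ℝ) ≤ (N : ℝ) ^ η := by rw [hz]; exact Nat.floor_le (by positivity)
  have hzgt : (N : ℝ) ^ η < z + 1 := by rw [hz]; exact Nat.lt_floor_add_one _
  have hzz2 : z₂ ≤ z := by
    have : (z₂ : ℝ) ≤ z := by linarith
    exact_mod_cast this
  have hz3 : 3 ≤ z := hz₂3.trans hzz2
  have hz3R : (3 : ℝ) ≤ z := by exact_mod_cast hz3
  have hz0 : (0 : ℝ) < z := by linarith
  have hzhalf : (N : ℝ) ^ η / 2 ≤ z := by linarith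
  obtain ⟨ν, hν⟩ : ∃ ν : ℝ, ν = Real.log N := ⟨_, rfl⟩
  rw [← hν]
  have hν1 : 1 < ν := by
    rw [hν, Real.lt_log_iff_exp_lt hN0]
    linarith [Real.exp_one_lt_d9]
  have hν0 : 0 < ν := by linarith
  have hlz1 : 1 ≤ Real.log z := by
    rw [Real.le_log_iff_exp_le hz0]
    linarith [Real.exp_one_lt_d9]
  have hlzup : Real.log z ≤ η * ν := by
    rw [hν, ← Real.log_rpow hN0]
    exact Real.log_le_log hz0 hzle
  have hlz : η * ν / 2 ≤ Real.log z := by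
    have h1 : η * ν = Real.log ((N : ℝ) ^ η) := by rw [Real.log_rpow hN0, hν]
    have h2 : Real.log ((N : ℝ) ^ η) ≤ Real.log (2 * z) := Real.log_le_log (by positivity) (by linarith)
    rw [Real.log_mul (by norm_num) hz0.ne'] at h2
    have h3 : Real.log 2 ≤ Real.log z := Real.log_le_log (by norm_num) (by linarith)
    linarith
  set Q := QT S z ((N : ℝ) ^ (10 / 11 : ℝ)) with hQ
  have hQm : ∀ p ∈ Q, p.Prime ∧ z < p ∧ rhoT S p ≠ 0 := fun p hp => (mem_filter.1 hp).2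
  have hQlog : ∀ p ∈ Q, Real.log z < Real.log p := by
    intro p hp
    apply Real.log_lt_log hz0
    exact_mod_cast (hQm p hp).2.1
  have hQmax : ∀ p ∈ Q, Real.log p ≤ 10 / 11 * ν := by
    intro p hp
    have h1 := (mem_Icc.1 (mem_filter.1 hp).1).2
    have h2 : (p : ℝ) ≤ (N : ℝ) ^ (10 / 11 : ℝ) := (Nat.le_floor_iff (by positivity)).1 h1
    have h3 : (0 : ℝ) < p := by exact_mod_cast (hQm p hp).1.pos
    rw [hν, ← Real.log_rpow hN0]
    exact Real.log_le_log h3 h2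
  have hemp : RQ Q (ν / 8 ^ m) = ∅ := by
    rw [eq_empty_iff_forall_notMem]
    intro p hp
    obtain ⟨h1, h2⟩ := mem_filter.1 hp
    have h3 := hQlog p h1
    have h4 : ν / 8 ^ m ≤ η * ν / 2 := by
      rw [div_le_iff₀ (by positivity)]
      rw [div_lt_iff₀ hη0] at hm
      nlinarith
    linarith
  obtain ⟨l1, l2, w1, w2, w3, w4, w5, w6⟩ := weights hd ν hν0 m hemp hQmax
  set R := RQ Q (ν / 10) with hR
  -- the main inequality
  obtain ⟨D, hD⟩ : ∃ D : ℕ, D = ⌊(N : ℝ) ^ (0.9985 : ℝ)⌋₊ := ⟨_, rfl⟩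
  have hDle : (D : ℝ) ≤ (N : ℝ) ^ (0.9985 : ℝ) := by rw [hD]; exact Nat.floor_le (by positivity)
  have hDgt : (N : ℝ) ^ (0.9985 : ℝ) < D + 1 := by rw [hD]; exact Nat.lt_floor_add_one _
  have hexpN : Real.exp (0.9985 * ν) = (N : ℝ) ^ (0.9985 : ℝ) := by
    rw [hν, Real.rpow_def_of_pos hN0, mul_comm]
  have hDk : D ≤ z ^ k := by
    have h1 : (D : ℝ) ≤ (z : ℝ) ^ k := by
      refine hDle.trans ?_
      rw [← hexpN, ← Real.exp_log hz0, ← Real.exp_nat_mul]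
      apply Real.exp_le_exp.2
      have h2 : 2 ≤ η * k := by
        rw [div_le_iff₀ hη0] at hk1
        linarith
      nlinarith
    exact_mod_cast h1
  have hzD : z ^ 900 * D ≤ N := by
    have h1 : (z : ℝ) ^ 900 * D ≤ N := by
      have h2 : (z : ℝ) ^ 900 ≤ (N : ℝ) ^ (0.0015 : ℝ) := by
        calc (z : ℝ) ^ 900 ≤ ((N : ℝ) ^ η) ^ 900 := pow_le_pow_left₀ hz0.le hzle _
          _ = (N : ℝ) ^ (0.0015 : ℝ) := by
              rw [← Real.rpow_natCast, ← Real.rpow_mul hN0.le]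
              congr 1
      calc (z : ℝ) ^ 900 * D ≤ (N : ℝ) ^ (0.0015 : ℝ) * (N : ℝ) ^ (0.9985 : ℝ) :=
            mul_le_mul h2 hDle (Nat.cast_nonneg _) (by positivity)
        _ = N := by
            rw [← Real.rpow_add hN0]
            norm_num
    exact_mod_cast h1
  have hQsum : ∑ p ∈ Q, 1 / (p : ℝ) ≤ k := by
    have h1 : ∑ p ∈ Q, 1 / (p : ℝ) ≤ ∑ p ∈ Q, (rhoT S p : ℝ) / p := by
      apply sum_le_sum
      intro p hp
      apply div_le_div_of_nonneg_right _ (Nat.cast_nonneg p)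
      have := Nat.one_le_iff_ne_zero.2 (hQm p hp).2.2
      exact_mod_cast this
    have h2 : Q ⊆ IQ Q (η * ν / 2) ν := by
      intro p hp
      refine mem_filter.2 ⟨hp, ?_, ?_⟩
      · linarith [hQlog p hp]
      · linarith [hQmax p hp]
    have h4 := hd.sum (η * ν / 2) ν (by positivity) (by nlinarith)
    have e : ν / (η * ν / 2) = 2 / η := by field_simp
    rw [e] at h4
    have h3 : ∑ p ∈ Q, (rhoT S p : ℝ) / p ≤ ∑ p ∈ IQ Q (η * ν / 2) ν, (rhoT S p : ℝ) / p :=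
      sum_le_sum_of_subset_of_nonneg h2 fun p hp _ => hd.nn p (mem_filter.1 hp).1
    linarith
  have hV : 1 / (k : ℝ) ≤ gen Q l1 (fun p => (rhoT S p : ℝ) / p) := by
    refine le_trans ?_ w4
    have hRsub : ∀ p ∈ R, p ∈ Q := fun p hp => (mem_filter.1 hp).1
    have h1 := prod_lower R (fun p => (rhoT S p : ℝ) / p) (fun p hp => hd.nn p (hRsub p hp))
      (fun p hp => hd.small p (hRsub p hp))
    refine le_trans ?_ h1
    have h2 : R ⊆ IQ Q (η * ν / 2) ν := by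
      intro p hp
      obtain ⟨h3, h4⟩ := mem_filter.1 hp
      refine mem_filter.2 ⟨h3, ?_, ?_⟩
      · linarith [hQlog p h3]
      · linarith
    have h3 : ∑ p ∈ R, (rhoT S p : ℝ) / p ≤ Real.log (2 / η) + 0.00001 := by
      have h4 := hd.sum (η * ν / 2) ν (by positivity) (by nlinarith)
      have e : ν / (η * ν / 2) = 2 / η := by field_simp
      rw [e] at h4
      refine (sum_le_sum_of_subset_of_nonneg h2 ?_).trans h4
      intro p hp _
      exact hd.nn p (mem_filter.1 hp).1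
    have h5 : Real.log (2 / η) ≤ Real.log (1 / η) + 0.7 := by
      have e : (2 : ℝ) / η = 2 * (1 / η) := by ring
      rw [e, Real.log_mul (by norm_num) (by positivity)]
      linarith [log_two_ub]
    have h6 : 0 ≤ Real.log (1 / η) := Real.log_nonneg (by
      rw [one_le_div hη0]
      linarith)
    rw [one_div, ← Real.log_le_log_iff (by positivity) (Real.exp_pos _), Real.log_exp, Real.log_inv]
    have h7 : 2 * (Real.log (1 / η) + 1) ≤ Real.log k := by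
      rw [Real.le_log_iff_exp_le (by linarith)]
      exact hk3
    linarith
  have hmain := hz₂ z hzz2 N D hDk hzD T S per perS even zero hrho Q (fun p hp => ⟨(hQm p hp).1, (hQm p hp).2.1⟩) hrhoS hQsum l1 l2
    (fun U _ => ⟨(w1 U).1.trans hkR, (w1 U).2.trans hk2⟩)
    (by
      intro U hU hlt
      apply w2 U hU
      rw [hexpN]
      have h1 : (D : ℝ) + 1 ≤ ((∏ p ∈ U, p : ℕ) : ℝ) := by exact_mod_cast hlt
      push_cast at h1
      linarith)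
    w5 (by linarith) hV A hA
  clear hz₂ hd hQsum hV w4 w5 w6 hDk hzD hDle hDgt hexpN
  -- the upper bound
  have hcw : ∀ p : ℕ, 5 / 9 * (1 - 1.1 * Real.log p / ν) = cw4 N p := by
    intro p
    unfold cw4
    rw [hν]
  simp only [hcw] at w3
  have hRQ : R ⊆ Q := filter_subset _ _
  have hcn : ∀ p ∈ Q \ R, 0 ≤ cw4 N p := by
    intro p hp
    rw [← hcw]
    have h1 := hQmax p (mem_sdiff.1 hp).1
    have e1 : 1.1 * Real.log p / ν = 1.1 * (Real.log p / ν) := by ring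
    have e2 : Real.log p / ν ≤ 10 / 11 := by
      rw [div_le_iff₀ hν0]
      exact h1
    rw [e1]
    linarith
  have hPT0 : ∀ q ∈ Pz z, ¬ T q 0 := fun q hq => zero q (mem_filter.1 hq).2 (mem_Icc.1 (mem_filter.1 hq).1).2
  have hL : 0 < ((224 : ℕ) : ℝ) * Real.log z := by positivity
  have hLam0 := Lam_zero z 224 4 (by omega) (by norm_num) T hPT0
  have hup := pair_upper_w T S A Q R (cw4 N) z (fun n => Lam (Pz z) ((224 : ℕ) * Real.log z) (4 : ℕ) T n) _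
    ((z : ℝ) ^ (224 * (4 + 1)))
    (fun n => pt_upper T S Q R hRQ (cw4 N) hcn l1 l2 w3 z n (Lam (Pz z) ((224 : ℕ) * Real.log z) (4 : ℕ) T n))
    (by rw [abs_of_nonneg hLam0.1]; exact hLam0.2)
    (fun n hn hgood => Lam_om T z _ hL n hn hgood.1)
  set W := ∑ x ∈ (A ×ˢ A).filter (fun x : ℕ × ℕ => x.1 ≠ x.2 ∧
      Good T S Q R (cw4 N) z ((x.2 : ℤ) - x.1)), om ((x.2 : ℤ) - x.1) with hWd
  have hlow := hmain.trans hup
  clear hmain hup w3 w2 w1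
  clear_value W
  obtain ⟨a, ha⟩ : ∃ a : ℝ, a = A.card := ⟨_, rfl⟩
  have ha0 : 0 ≤ a := by rw [ha]; exact Nat.cast_nonneg _
  rw [← ha] at hlow hAc ⊢
  have hk0 : (0 : ℝ) < k := by linarith
  -- first error term
  have e1 : (N : ℝ) * a / (z : ℝ) ^ (4 / 5 : ℝ) ≤ 0.03 / (400 * k) * a ^ 2 := by
    have h1 : (N : ℝ) ^ (4 / 5 * η) / 2 ≤ (z : ℝ) ^ (4 / 5 : ℝ) := by
      have h2 : ((N : ℝ) ^ η / 2) ^ (4 / 5 : ℝ) ≤ (z : ℝ) ^ (4 / 5 : ℝ) :=
        Real.rpow_le_rpow (by positivity) hzhalf (by norm_num)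
      refine le_trans ?_ h2
      rw [Real.div_rpow (by positivity) (by norm_num), ← Real.rpow_mul hN0.le, mul_comm η]
      apply div_le_div_of_nonneg_left (by positivity) (by positivity)
      calc (2 : ℝ) ^ (4 / 5 : ℝ) ≤ (2 : ℝ) ^ (1 : ℝ) := Real.rpow_le_rpow_of_exponent_le (by norm_num) (by norm_num)
        _ = 2 := Real.rpow_one _
    have hsq : 0 < (z : ℝ) ^ (4 / 5 : ℝ) := by positivity
    rw [div_le_iff₀ hsq]
    have h2 : (N : ℝ) = (N : ℝ) ^ (1 - κ) * (N : ℝ) ^ κ := by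
      rw [← Real.rpow_add hN0, sub_add_cancel, Real.rpow_one]
    have h3 : (N : ℝ) ^ (4 / 5 * η) = (N : ℝ) ^ κ * (N : ℝ) ^ (4 / 5 * η - κ) := by
      rw [← Real.rpow_add hN0]
      congr 1
      ring
    have hp : 0 < (N : ℝ) ^ κ := by positivity
    have h4 : (N : ℝ) ≤ a * (N : ℝ) ^ κ := by
      calc (N : ℝ) = (N : ℝ) ^ (1 - κ) * (N : ℝ) ^ κ := h2
        _ ≤ a * (N : ℝ) ^ κ := mul_le_mul_of_nonneg_right hAc hp.le
    have h5 : 1 ≤ 0.03 / (400 * k) * ((N : ℝ) ^ (4 / 5 * η - κ) / 2) := by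
      rw [div_mul_eq_mul_div, le_div_iff₀ (by positivity)]
      linarith
    calc (N : ℝ) * a ≤ (a * (N : ℝ) ^ κ) * a := mul_le_mul_of_nonneg_right h4 ha0
      _ = 1 * (a ^ 2 * (N : ℝ) ^ κ) := by ring
      _ ≤ (0.03 / (400 * k) * ((N : ℝ) ^ (4 / 5 * η - κ) / 2)) * (a ^ 2 * (N : ℝ) ^ κ) :=
          mul_le_mul_of_nonneg_right h5 (by positivity)
      _ = 0.03 / (400 * k) * a ^ 2 * (((N : ℝ) ^ κ * (N : ℝ) ^ (4 / 5 * η - κ)) / 2) := by ring
      _ = 0.03 / (400 * k) * a ^ 2 * ((N : ℝ) ^ (4 / 5 * η) / 2) := by rw [h3]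
      _ ≤ 0.03 / (400 * k) * a ^ 2 * (z : ℝ) ^ (4 / 5 : ℝ) := mul_le_mul_of_nonneg_left h1 (by positivity)
  -- second error term
  have e2 : ((z : ℝ) ^ (224 * (4 + 1))) ^ 2 * a ≤ 0.03 / (400 * k) * a ^ 2 := by
    have h1 : ((z : ℝ) ^ (224 * (4 + 1))) ^ 2 ≤ (N : ℝ) ^ (1 / 4 : ℝ) := by
      calc ((z : ℝ) ^ (224 * (4 + 1))) ^ 2 ≤ (((N : ℝ) ^ η) ^ (224 * (4 + 1))) ^ 2 := by gcongr
        _ = (N : ℝ) ^ (η * 2240) := by
            rw [← pow_mul, ← Real.rpow_natCast, ← Real.rpow_mul hN0.le]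
            congr 1
        _ ≤ _ := by
            apply Real.rpow_le_rpow_of_exponent_le hN1
            linarith
    have h2 : (N : ℝ) ^ (1 / 4 : ℝ) * (N : ℝ) ^ (1 / 4 : ℝ) ≤ a := by
      rw [← Real.rpow_add hN0]
      exact (Real.rpow_le_rpow_of_exponent_le hN1 (by linarith)).trans hAc
    have hp : 0 < (N : ℝ) ^ (1 / 4 : ℝ) := by positivity
    have h5 : 1 ≤ 0.03 / (400 * k) * ((N : ℝ) ^ (1 / 4 : ℝ)) := by
      rw [div_mul_eq_mul_div, le_div_iff₀ (by positivity)]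
      linarith
    calc ((z : ℝ) ^ (224 * (4 + 1))) ^ 2 * a ≤ (N : ℝ) ^ (1 / 4 : ℝ) * a := mul_le_mul_of_nonneg_right h1 ha0
      _ = 1 * ((N : ℝ) ^ (1 / 4 : ℝ) * a) := by ring
      _ ≤ (0.03 / (400 * k) * ((N : ℝ) ^ (1 / 4 : ℝ))) * ((N : ℝ) ^ (1 / 4 : ℝ) * a) :=
          mul_le_mul_of_nonneg_right h5 (by positivity)
      _ = 0.03 / (400 * k) * (((N : ℝ) ^ (1 / 4 : ℝ) * (N : ℝ) ^ (1 / 4 : ℝ)) * a) := by ring
      _ ≤ 0.03 / (400 * k) * (a * a) := by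
          apply mul_le_mul_of_nonneg_left _ (by positivity)
          exact mul_le_mul_of_nonneg_right h2 ha0
      _ = _ := by ring
  have e3 : 0.03 / (100 * k) * a ^ 2 = 4 * (0.03 / (400 * k) * a ^ 2) := by
    field_simp
    ring
  rw [e3] at hlow
  have hX : 0 ≤ 0.03 / (400 * k) * a ^ 2 := by positivity
  linarith

end Pool.Agent.H16.P5
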